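import Pool.Agent.W_7742u_h74.UTfa

/-! # One representation modulo one ideal of explicit norm; conjugates -/

set_option autoImplicit false

noncomputable section

open Filter Topology

namespace Pool.Agent.Crit74

open NumberField Polynomial
open Pool.Agent.OneM74 Pool.Agent.GalSide Pool.Agent.OneP74 Pool.Agent.OneI74 Pool.Agent.OneN74
open Pool.Agent.GLForm74
open Pool.Agent.OneJ74 (YY)

variable {n N : ℕ} {K : Type} [Field K] [NumberField K]

theorem one_explicit (hn : 2 ≤ n) {P : ℕ → ℂ[X]} {F : Nat.Primes → GQ} (hF : IsFrobeniusChoice F)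
    {s₀ : K →+* ℂ} {b : Nat.Primes → 𝓞 K}
    (hb : DensityZero {p : Nat.Primes | s₀ (b p : K) ≠ -(P p).coeff (n - 1)})
    (hm : ∀ s : K →+* ℂ, MeanLE 1 fun p => ‖s (b p : K)‖ ^ 2) {A : Type} [CommRing A]
    (ι : 𝓞 K →+* A)
    (hι : (2 * n) ^ (3 * (n ^ 2 + 1) * Module.finrank ℚ K) ≤ Ideal.absNorm (RingHom.ker ι))
    (r : GQ →* GL (Fin n) A) (ho : IsOpen (r.ker : Set GQ))
    (hr : DensityZero {p : Nat.Primes | (r (F p)).val.trace ≠ ι (b p)}) :
    HasMotive n F P ∅ r.ker := by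
  have hY : YY n ^ Module.finrank ℚ K ≤ Ideal.absNorm (RingHom.ker ι) := by
    refine le_trans (le_of_eq ?_) hι
    unfold Pool.Agent.OneJ74.YY
    rw [← pow_mul]
  obtain ⟨E, iE, iN, i, R, h1, h2, h3, -⟩ := one_E (by omega : 0 < n) b hm hF ι hY r ho hr
  obtain ⟨τ, hτ⟩ := UUni_ext i s₀
  refine ⟨E, iE, iN, τ, R, h1.2, h2, ?_, ?_, by simp⟩
  · rw [GLmap_ker τ τ.injective]
    exact h1.1
  · refine dens_union h3 hb ?_
    intro p hp
    by_contra hcon
    rw [Set.mem_union, not_or] at hcon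
    have e1 : (R (F p)).val.trace = i (b p : K) := not_not.1 hcon.1
    have e2 : s₀ (b p : K) = -(P p).coeff (n - 1) := not_not.1 hcon.2
    apply hp
    rw [GLmap_val, map_trace', e1, RingHom.id_apply, ← e2, ← hτ]
    rfl

end Pool.Agent.Crit74
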