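import Pool.Agent.W_7742n_h74.CFam
import Pool.Agent.W_7742m_h74.UMod

/-! # Sets of primes of small upper density -/

set_option autoImplicit false

noncomputable section

open Filter Topology NumberField

namespace Pool.Agent.OneU74

open Pool.Agent.GalSide Pool.Agent.OneI74
open Pool.Agent.OneN74 (UpLE)

theorem ind_mul (T : Set Nat.Primes) (s : ℝ) (p : Nat.Primes) :
    T.indicator (fun _ : Nat.Primes => (1 : ℝ)) p * ((p : ℕ) : ℝ) ^ (-s) =
      T.indicator (fun q : Nat.Primes => ((q : ℕ) : ℝ) ^ (-s)) p := by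
  by_cases hT : p ∈ T
  · rw [Set.indicator_of_mem hT, Set.indicator_of_mem hT, one_mul]
  · rw [Set.indicator_of_notMem hT, Set.indicator_of_notMem hT, zero_mul]

theorem logBound_ind {X : Set Nat.Primes} {δ : ℝ} (h : UpLE X δ) (ε : ℝ) (hε : 0 < ε) :
    LogBound (δ + ε) (X.indicator fun _ : Nat.Primes => (1 : ℝ)) := by
  filter_upwards [h ε hε, Chb_gt] with s h1 hs
  have e1 : (fun p : Nat.Primes => X.indicator (fun _ : Nat.Primes => (1 : ℝ)) p *
      ((p : ℕ) : ℝ) ^ (-s)) = X.indicator (fun q : Nat.Primes => ((q : ℕ) : ℝ) ^ (-s)) :=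
    funext fun p => ind_mul X s p
  rw [e1]
  exact ⟨Chb_summable hs X, h1⟩

theorem UpLE_mono {X X' : Set Nat.Primes} {δ : ℝ} (h : UpLE X δ) (hX : X' ⊆ X) : UpLE X' δ := by
  intro ε hε
  filter_upwards [h ε hε, Chb_gt] with s h1 hs
  refine le_trans ?_ h1
  refine (Chb_summable hs X').tsum_le_tsum (fun p => ?_) (Chb_summable hs X)
  exact Set.indicator_le_indicator_of_subset hX (fun q => Real.rpow_nonneg (Nat.cast_nonneg _) _) p

theorem primeSum_union {X Z X' : Set Nat.Primes} (hX : X' ⊆ X ∪ Z) {s : ℝ} (hs : 1 < s) :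
    primeSum X' s ≤ primeSum X s + primeSum Z s := by
  refine hasSum_le (fun p => ?_) (Chb_summable hs X').hasSum
    ((Chb_summable hs X).hasSum.add (Chb_summable hs Z).hasSum)
  have hw : 0 ≤ ((p : ℕ) : ℝ) ^ (-s) := Real.rpow_nonneg (Nat.cast_nonneg _) _
  have i1 : 0 ≤ X.indicator (fun q : Nat.Primes => ((q : ℕ) : ℝ) ^ (-s)) p :=
    Set.indicator_nonneg (fun q _ => Real.rpow_nonneg (Nat.cast_nonneg _) _) _
  have i2 : 0 ≤ Z.indicator (fun q : Nat.Primes => ((q : ℕ) : ℝ) ^ (-s)) p :=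
    Set.indicator_nonneg (fun q _ => Real.rpow_nonneg (Nat.cast_nonneg _) _) _
  by_cases hp : p ∈ X'
  · rw [Set.indicator_of_mem hp]
    rcases hX hp with hpX | hpZ
    · rw [Set.indicator_of_mem hpX]
      linarith
    · rw [Set.indicator_of_mem hpZ]
      linarith
  · rw [Set.indicator_of_notMem hp]
    linarith

theorem UpLE_add {X Z X' : Set Nat.Primes} {δ δ' : ℝ} (h : UpLE X δ) (h' : UpLE Z δ')
    (hX : X' ⊆ X ∪ Z) : UpLE X' (δ + δ') := by
  intro ε hε
  filter_upwards [h (ε / 2) (by positivity), h' (ε / 2) (by positivity), Chb_gt] with s h1 h2 hs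
  have h3 := primeSum_union hX hs
  calc primeSum X' s ≤ (δ + ε / 2) * Real.log (1 / (s - 1)) +
        (δ' + ε / 2) * Real.log (1 / (s - 1)) := by linarith
    _ = (δ + δ' + ε) * Real.log (1 / (s - 1)) := by ring

theorem UpLE_union {X Z X' : Set Nat.Primes} {δ : ℝ} (h : UpLE X δ) (hZ : HasDensity Z 0)
    (hX : X' ⊆ X ∪ Z) : UpLE X' δ := by
  intro ε hε
  have h1 : ∀ᶠ s : ℝ in 𝓝[>] 1, primeSum Z s / Real.log (1 / (s - 1)) < ε / 2 :=
    hZ.eventually_lt_const (by positivity)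
  filter_upwards [h (ε / 2) (by positivity), h1, Chb_log.eventually_gt_atTop 0, Chb_gt]
    with s h2 h3 hL hs
  rw [div_lt_iff₀ hL] at h3
  have h4 := primeSum_union hX hs
  linarith

theorem UpLE_of_density {X : Set Nat.Primes} (h : HasDensity X 0) {δ : ℝ} (hδ : 0 ≤ δ) :
    UpLE X δ := by
  intro ε hε
  have h1 : ∀ᶠ s : ℝ in 𝓝[>] 1, primeSum X s / Real.log (1 / (s - 1)) < ε :=
    h.eventually_lt_const hε
  filter_upwards [h1, Chb_log.eventually_gt_atTop 0] with s h2 hL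
  rw [div_lt_iff₀ hL] at h2
  nlinarith

end Pool.Agent.OneU74
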