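import Pool.Agent.W_7742u_h74.UEnd

/-! A criterion for one cuspidal representation of `GL_n` over `ℚ` to belong to an Artin motive. -/

namespace Pool.Agent.OldArtin74

open NumberField Polynomial Pool.Agent.GLForm74 Pool.Agent.Crit74

/-- Let `n ≥ 2`, `N ≥ 1`, and let `P p`, `p` prime, be polynomials over `ℂ`, monic of degree `n` if `p`
does not divide `N`, which are the Hecke polynomials of a cusp form on `GL_n` over `ℚ` of level `N`.  Let
`V` be a set of primes which do not divide `N`.

(1) The following are equivalent.

(a) There are a number field `E ⊆ ℂ` and an absolutely irreducible representation `R : G_ℚ → GL_n(E)` with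
open kernel such that `tr R(F p)` is the trace of `P p` for all `p` outside a set of density zero, and such
that `R` is unramified at `p` and `char R(F p) = P p` for all `p ∈ V`.

(b) There are a number field `K ⊆ ℂ` and a bound `T` such that for every ideal `𝔞 ≠ 0` of `𝓞 K` there are a
commutative ring `A ⊇ 𝓞 K / 𝔞` and a representation `r : G_ℚ → GL_n(A)` with open kernel such that for all
`p` outside a set of density zero the trace of `P p` is an element of `𝓞 K` whose conjugates have absolute
value at most `T`, and its image in `A` is `tr r(F p)`, and such that for all `p ∈ V` the polynomial `P p`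
has coefficients in `𝓞 K`, `r` is unramified at `p`, and `char r(F p)` is the image of `P p`.

(c) For every subset `W` of `V` with at most one element and every `ε > 0` there is a `T` such that for all
`B` there are a field `K ⊆ ℂ` which is algebraic over `ℚ`, a homomorphism `ι` from `𝓞 K` to a commutative
ring `A` such that every nonzero element of its kernel has a conjugate of absolute value at least `B`, and
a representation `r : G_ℚ → GL_n(A)` with open kernel, such that for all `p` outside a set of upper density
at most `ε` the trace of `P p` is an element of `𝓞 K` whose conjugates have absolute value at most `T`,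
and its image in `A` is `tr r(F p)`, and such that for all `p ∈ W` the polynomial `P p` has coefficients
in `𝓞 K`, `r` is unramified at `p`, and `char r(F p)` is the image of `P p`.

(2) Let `K ⊆ ℂ` be a number field of degree `d` and `b p`, `p` prime, algebraic integers of `K` such that
`b p` is the trace of `P p` for all `p` outside a set of density zero and such that for every embedding `s`
of `K` the mean of `|s (b p)| ^ 2` is at most `1`.  If there are a homomorphism from `𝓞 K` to a commutative
ring `A` whose kernel has norm at least `(2 n) ^ (3 (n ^ 2 + 1) d)`, and a representation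
`r : G_ℚ → GL_n(A)` with open kernel such that `tr r(F p)` is the image of `b p` for all `p` outside a set
of density zero, then there is `R` as in (a) for the empty set instead of `V` which is trivial on the
kernel of `r`.

(3) The means in (2) are at most `1` if `b p` is the trace of `Q p`, where `Q p` are polynomials over
`𝓞 K`, monic of degree `n` if `p` does not divide `N`, such that for every embedding `s` of `K` the
`s (Q p)` or their complex conjugates are the Hecke polynomials of a cusp form on `GL_n` of level `N`. -/
theorem result (n N : ℕ) (hn : 2 ≤ n) (hN : 0 < N) (P : ℕ → ℂ[X])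
    (hP : ∀ p : ℕ, p.Prime → ¬ p ∣ N → (P p).Monic ∧ (P p).natDegree = n)
    (hc : IsCuspidalSystem N P n) (F : Nat.Primes → GQ) (hF : IsFrobeniusChoice F)
    (V : Set Nat.Primes) (hV : ∀ p ∈ V, ¬ (p : ℕ) ∣ N) :
    [HasMotive n F P V ⊥,
      ∃ (K : Type) (_ : Field K) (_ : NumberField K) (s : K →+* ℂ) (T : ℝ),
        ∀ 𝔞 : Ideal (𝓞 K), 𝔞 ≠ ⊥ →
          ∃ (A : Type) (_ : CommRing A) (ι : 𝓞 K →+* A) (r : GQ →* GL (Fin n) A),
            RingHom.ker ι = 𝔞 ∧ NearlyAttached F P V s T 0 ι r,
      ∀ W ⊆ V, W.Subsingleton → ∀ ε : ℝ, 0 < ε → ∃ T : ℝ, ∀ B : ℝ,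
        ∃ (K : Type) (_ : Field K) (_ : CharZero K) (_ : Algebra.IsAlgebraic ℚ K) (s : K →+* ℂ)
          (A : Type) (_ : CommRing A) (ι : 𝓞 K →+* A) (r : GQ →* GL (Fin n) A),
          (∀ x : 𝓞 K, x ≠ 0 → ι x = 0 → ∃ σ : K →+* ℂ, B ≤ ‖σ (x : K)‖) ∧
          NearlyAttached F P W s T ε ι r].TFAE ∧
    (∀ (K : Type) [Field K] [NumberField K] (s₀ : K →+* ℂ) (b : Nat.Primes → 𝓞 K),
      DensityZero {p : Nat.Primes | s₀ (b p : K) ≠ -(P p).coeff (n - 1)} →
      (∀ s : K →+* ℂ, MeanLE 1 fun p => ‖s (b p : K)‖ ^ 2) →
      ∀ (A : Type) [CommRing A] (ι : 𝓞 K →+* A),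
        (2 * n) ^ (3 * (n ^ 2 + 1) * Module.finrank ℚ K) ≤ Ideal.absNorm (RingHom.ker ι) →
        ∀ r : GQ →* GL (Fin n) A, IsOpen (r.ker : Set GQ) →
          DensityZero {p : Nat.Primes | (r (F p)).val.trace ≠ ι (b p)} →
          HasMotive n F P ∅ r.ker) ∧
    ∀ (K : Type) [Field K] [NumberField K] (Q : ℕ → (𝓞 K)[X]),
      (∀ p : ℕ, p.Prime → ¬ p ∣ N → (Q p).Monic ∧ (Q p).natDegree = n) →
      (∀ s : K →+* ℂ,
        IsCuspidalSystem N (fun p => (Q p).map (s.comp (algebraMap (𝓞 K) K))) n ∨
        IsCuspidalSystem N (fun p => (Q p).map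
          ((starRingEnd ℂ).comp (s.comp (algebraMap (𝓞 K) K)))) n) →
      ∀ s : K →+* ℂ, MeanLE 1 fun p => ‖s ((Q p).coeff (n - 1) : K)‖ ^ 2 := by
  refine ⟨tfae_near hn hN hP hc hF hV, fun K _ _ s₀ b hb hm A _ ι hι r ho hr =>
    one_explicit hn hF hb hm ι hι r ho hr, fun K _ _ Q hQ hs => (mean_of_all hn hN Q hQ hs).1⟩

end Pool.Agent.OldArtin74
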