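import Pool.Agent.W_7742u_h74.UBda
import Pool.Agent.W_7742j_h74.JCor

/-! # The lift is `b` up to the minor (compare `W_7742j_h74/JCor.lean`) -/

set_option autoImplicit false

noncomputable section

namespace Pool.Agent.OneU74

open NumberField Pool.Agent.OneI74
open Pool.Agent.OneJ74 (h₁ h₂ JCor_border JExt_avoid)

variable {K A Γ : Type} [Field K] [CommRing A] [Group Γ] [Fintype Γ] {n : ℕ}
  {t Y : ℕ} {s₀ : K →+* ℂ}
  {ι : 𝓞 K →+* A} {r : Γ →* Matrix (Fin n) (Fin n) A} {f : Γ → 𝓞 K} {ρ : ℕ} {k x : Fin ρ → Γ}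
  {b : Γ → K}

theorem BDat4.cor (H : BDat4 t Y s₀ ι r f ρ k x b) (g : Γ) (c : 𝓞 K) (hc : ι c = (r g).trace) :
    ∃ z : 𝓞 K, ι z = 0 ∧ (z : K) = (mat f k x).det * (c - b g) := by
  classical
  obtain rfl : ρ = n ^ 2 := H.rank_eq
  set m := Nat.card {y // y ∉ S f t} with hm
  have hcard : Fintype.card (Fin (n ^ 2) ⊕ Fin (n ^ 2)) * m < Nat.card Γ := by
    have e1 := H.set4.card1
    rw [Fintype.card_sum, Fintype.card_fin]
    rcases Nat.eq_zero_or_pos m with h0 | h0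
    · rw [h0, mul_zero]
      exact Nat.card_pos
    · refine lt_of_lt_of_le ?_ e1
      refine Nat.mul_lt_mul_of_pos_right ?_ h0
      unfold h₁
      nlinarith [Nat.zero_le (n ^ 2)]
  obtain ⟨u, hu⟩ := JExt_avoid (S f t) (ι := Fin (n ^ 2) ⊕ Fin (n ^ 2))
    (Sum.elim (fun j z => z * x j) (fun i z => k i * (z⁻¹ * g)))
    (by
      rintro (j | i) z z' hzz
      · exact mul_right_cancel hzz
      · exact inv_injective (mul_right_cancel (mul_left_cancel hzz))) hcard
  have hu1 : ∀ j, u * x j ∈ S f t := fun j => hu (Sum.inl j)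
  have hu2 : ∀ i, k i * (u⁻¹ * g) ∈ S f t := fun i => hu (Sum.inr i)
  obtain ⟨k', hk'⟩ : ∃ k' : Fin (n ^ 2 + 1) → Γ, k' = Fin.snoc k u := ⟨_, rfl⟩
  obtain ⟨x', hx'⟩ : ∃ x' : Fin (n ^ 2 + 1) → Γ, x' = Fin.snoc x (u⁻¹ * g) := ⟨_, rfl⟩
  have hk1 : ∀ i, k' (Fin.castSucc i) = k i := fun i => by rw [hk', Fin.snoc_castSucc]
  have hk2 : k' (Fin.last _) = u := by rw [hk', Fin.snoc_last]
  have hx1 : ∀ i, x' (Fin.castSucc i) = x i := fun i => by rw [hx', Fin.snoc_castSucc]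
  have hx2 : x' (Fin.last _) = u⁻¹ * g := by rw [hx', Fin.snoc_last]
  have hS' : ∀ i j, ¬ (i = Fin.last _ ∧ j = Fin.last _) → k' i * x' j ∈ S f t := by
    intro i j
    refine Fin.lastCases ?_ (fun i => ?_) i
    · refine Fin.lastCases ?_ (fun j => ?_) j
      · intro h
        exact absurd ⟨rfl, rfl⟩ h
      · intro _
        rw [hk2, hx1]
        exact hu1 j
    · refine Fin.lastCases ?_ (fun j => ?_) j
      · intro _
        rw [hk1, hx2]
        exact hu2 i
      · intro _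
        rw [hk1, hx1]
        exact H.hkx i j
  obtain ⟨B, hB⟩ : ∃ B : Matrix (Fin (n ^ 2 + 1)) (Fin (n ^ 2 + 1)) (𝓞 K), B = Matrix.of fun i j =>
    if i = Fin.last _ ∧ j = Fin.last _ then c else f (k' i * x' j) := ⟨_, rfl⟩
  have hne : ∀ i : Fin (n ^ 2), Fin.castSucc i ≠ Fin.last (n ^ 2) := fun i =>
    (Fin.castSucc_lt_last i).ne
  have hB1 : ∀ i j, B (Fin.castSucc i) (Fin.castSucc j) = f (k i * x j) := by
    intro i j
    rw [hB, Matrix.of_apply, if_neg (fun h => hne i h.1), hk1, hx1]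
  have hB2 : ∀ j, B (Fin.last _) (Fin.castSucc j) = f (u * x j) := by
    intro j
    rw [hB, Matrix.of_apply, if_neg (fun h => hne j h.2), hk2, hx1]
  have hB3 : ∀ i, B (Fin.castSucc i) (Fin.last _) = f (k i * (u⁻¹ * g)) := by
    intro i
    rw [hB, Matrix.of_apply, if_neg (fun h => hne i h.1), hk1, hx2]
  have hB4 : B (Fin.last _) (Fin.last _) = c := by
    rw [hB, Matrix.of_apply, if_pos ⟨rfl, rfl⟩]
  refine ⟨B.det, ?_, ?_⟩
  · rw [RingHom.map_det]
    have h4 : ι.mapMatrix B = Matrix.of fun i j => (r (k' i) * r (x' j)).trace := by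
      ext i j
      rw [RingHom.mapMatrix_apply, Matrix.map_apply, hB, Matrix.of_apply, Matrix.of_apply,
        ← map_mul]
      split_ifs with h
      · rw [h.1, h.2, hk2, hx2, hc, mul_inv_cancel_left]
      · rw [H.set4.hf _ (hS' i j h)]
    rw [h4]
    exact det_gram (by omega) _ _
  · have h5 : ((B.det : 𝓞 K) : K) = (B.map (algebraMap (𝓞 K) K)).det := by
      rw [← RingHom.mapMatrix_apply, ← RingHom.map_det]
    rw [h5]
    have h6 := JCor_border (mat f k x) H.hdet (fun j => ((f (u * x j) : 𝓞 K) : K))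
      (fun i => ((f (k i * (u⁻¹ * g)) : 𝓞 K) : K)) (c : K) (B.map (algebraMap (𝓞 K) K))
      (fun i j => by rw [Matrix.map_apply, hB1]; rfl)
      (fun j => by rw [Matrix.map_apply, hB2])
      (fun i => by rw [Matrix.map_apply, hB3])
      (by rw [Matrix.map_apply, hB4])
    rw [h6]
    congr 2
    have h7 := H.hfac u (u⁻¹ * g)
    rw [mul_inv_cancel_left] at h7
    rw [h7]
    refine Finset.sum_congr rfl fun i _ => Finset.sum_congr rfl fun j _ => ?_
    rw [H.hb _ (hu1 j), H.hb _ (hu2 i)]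

end Pool.Agent.OneU74
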