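import Pool.Agent.W_7742u_h74.UReal
import Pool.Agent.W_7742n_h74.NMod

/-! # Complex representations attached to a system -/

set_option autoImplicit false

noncomputable section

open Filter Topology

namespace Pool.Agent.Crit74

open NumberField Polynomial
open Pool.Agent.OneM74 Pool.Agent.GalSide Pool.Agent.OneP74 Pool.Agent.OneI74 Pool.Agent.Cheb
open Pool.Agent.OneU74 (realize mapRep)

variable {n : ℕ}

/-- There is an irreducible complex representation attached to the polynomials `P p`. -/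
def HasC (n : ℕ) (F : Nat.Primes → GQ) (P : ℕ → ℂ[X]) (V : Set Nat.Primes) : Prop :=
  ∃ R : GQ →* GL (Fin n) ℂ,
    (∀ W : Submodule ℂ (Fin n → ℂ), (∀ g, ∀ w ∈ W, (R g).val.mulVec w ∈ W) → W = ⊥ ∨ W = ⊤) ∧
    Attached F P V (RingHom.id ℂ) R

theorem motive_of_C (hn : 0 < n) {F : Nat.Primes → GQ} {P : ℕ → ℂ[X]} {V : Set Nat.Primes}
    (h : HasC n F P V) : HasMotive n F P V ⊥ := by
  classical
  obtain ⟨R, hi, ho, hd, hV⟩ := h
  have hfin : Finite (GQ ⧸ R.ker) := Subgroup.quotient_finite_of_isOpen R.ker ho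
  have := Fintype.ofFinite (GQ ⧸ R.ker)
  obtain ⟨ρ, hρ⟩ : ∃ ρ : GQ ⧸ R.ker →* Matrix (Fin n) (Fin n) ℂ,
      ∀ g, ρ (QuotientGroup.mk g) = (R g).val :=
    ⟨(Units.coeHom _).comp (QuotientGroup.kerLift R), fun g => rfl⟩
  obtain ⟨E, hE1, hE2, τ, R₀, hR₀, hirr⟩ := realize hn ρ (fun W hW => hi W fun g w hw => by
    rw [← hρ]
    exact hW _ w hw)
  let R' : GQ →* GL (Fin n) E := (R₀.comp (QuotientGroup.mk' R.ker)).toHomUnits
  have hR' : ∀ g, (R' g).val = R₀ (QuotientGroup.mk g) := fun g => rfl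
  have hker : R.ker ≤ R'.ker := by
    intro g hg
    refine MonoidHom.mem_ker.2 (Units.ext ?_)
    rw [hR', (QuotientGroup.eq_one_iff g).2 hg, map_one]
    rfl
  have htr : ∀ g, (((Matrix.GeneralLinearGroup.map τ).comp R') g).val.trace = (R g).val.trace := by
    intro g
    rw [GLmap_val, map_trace', hR', hR₀, hρ]
  have hker' : R.ker ≤ ((Matrix.GeneralLinearGroup.map τ).comp R').ker := by
    rw [GLmap_ker τ τ.injective]
    exact hker
  refine ⟨E, hE1, hE2, τ, R', fun τ' W hW => ?_, bot_le, ?_, ?_, fun p hp => ⟨?_, ?_⟩⟩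
  · refine hirr τ' W fun g w hw => ?_
    obtain ⟨g, rfl⟩ := QuotientGroup.mk_surjective g
    exact hW g w hw
  · exact Subgroup.isOpen_mono hker' ho
  · refine dens_mono hd fun p hp hx => hp ?_
    rw [htr, hx]
  · exact unramified_of_ker hker' (hV p hp).1
  · rw [← (hV p hp).2]
    refine Pool.Agent.DZ74.charpoly_eq_of_traces _ _ fun k _ _ => ?_
    rw [← Units.val_pow_eq_pow_val, ← Units.val_pow_eq_pow_val, ← map_pow, ← map_pow, htr]

theorem combineC {F : Nat.Primes → GQ} (hF : IsFrobeniusChoice F) {P : ℕ → ℂ[X]}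
    {V : Set Nat.Primes} (h0 : HasC n F P ∅) (h : ∀ p ∈ V, HasC n F P {p}) : HasC n F P V := by
  obtain ⟨R, hi, ho, hd, -⟩ := h0
  refine ⟨R, hi, ho, hd, fun p hp => ?_⟩
  obtain ⟨R', hi', ho', hd', hV'⟩ := h p hp
  obtain ⟨hu, hc⟩ := hV' p rfl
  have hZ := Pool.Agent.OneP74.density_union' hd hd' (subset_refl _)
  have htr : ∀ q : Nat.Primes, q ∉ ({q : Nat.Primes | (R (F q)).val.trace ≠
      (RingHom.id ℂ) (-(P q).coeff (n - 1))} ∪ {q : Nat.Primes | (R' (F q)).val.trace ≠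
      (RingHom.id ℂ) (-(P q).coeff (n - 1))} : Set Nat.Primes) →
      (R (F q)).val.trace = (R' (F q)).val.trace := by
    intro q hq
    rw [Set.mem_union, not_or] at hq
    exact (not_not.1 hq.1).trans (not_not.1 hq.2).symm
  have k1 := fun g => Pool.Agent.DZ74.same_charpoly hF ho ho' hZ htr g
  refine ⟨fun 𝔓 σ h1 h2 h3 => (k1 σ).2 (hu 𝔓 σ h1 h2 h3), ?_⟩
  rw [(k1 (F p)).1, hc]

end Pool.Agent.Crit74
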