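import Pool.Agent.W_7742j_h74.JFin

/-! # Definitions: lifts of the trace with small conjugates for most elements -/

set_option autoImplicit false

noncomputable section

namespace Pool.Agent.OneU74

open NumberField Pool.Agent.OneI74
open Pool.Agent.OneJ74 (h₁ h₂)

variable {K A Γ : Type} [Field K] [CommRing A] [Group Γ] {n : ℕ}

/-- All conjugates of `f x` are at most `t`. -/
def S (f : Γ → 𝓞 K) (t : ℕ) : Set Γ := {x | ∀ σ : K →+* ℂ, ‖σ (f x : K)‖ ≤ t}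

/-- The matrix `f (k i * x j)` over `K`. -/
def mat {ρ : ℕ} (f : Γ → 𝓞 K) (k x : Fin ρ → Γ) : Matrix (Fin ρ) (Fin ρ) K :=
  Matrix.of fun i j => (f (k i * x j) : K)

/-- The inequalities between the constants. -/
structure Cst (n t Y : ℕ) : Prop where
  hn : 0 < n
  hnt : n ≤ t
  i1 : ((n ^ 2 + 1) * t) ^ (n ^ 2 + 1) < Y
  i3 : (2 * n * t + (n + 1)) ^ (n + 1) < Y

/-- `f` is a lift of the trace of `r`, for most elements with conjugates at most `t`, and of mean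
square at most `1 + 1 / (4 n ^ 2)` at the embedding `s₀`. -/
structure Set4 [Fintype Γ] (t Y : ℕ) (s₀ : K →+* ℂ) (ι : 𝓞 K →+* A)
    (r : Γ →* Matrix (Fin n) (Fin n) A) (f : Γ → 𝓞 K) : Prop where
  cst : Cst n t Y
  hN : ∀ z : 𝓞 K, ι z = 0 → (∀ σ : K →+* ℂ, ‖σ (z : K)‖ < Y) → z = 0
  hf : ∀ x ∈ S f t, ι (f x) = (r x).trace
  hmin : ∀ x c, ι c = (r x).trace → (∀ σ : K →+* ℂ, ‖σ (c : K)‖ ≤ t) → f x = c
  hcomm : ∀ x y, f (x * y) = f (y * x)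
  card1 : h₁ n * Nat.card {x // x ∉ S f t} ≤ Nat.card Γ
  card2 : h₂ n * Nat.card {x // x ∉ S f t} ≤ Nat.card Γ
  hE0 : ∀ q : Γ → ℝ, (∀ x, q x ≤ ‖s₀ (f x : K)‖ ^ 2) → (∀ x, x ∉ S f t → q x ≤ 0) →
    ∑ x, q x ≤ (1 + 1 / (4 * (n : ℝ) ^ 2)) * Fintype.card Γ

/-- The extension `b` of `f` with values in `K`. -/
structure BDat4 [Fintype Γ] (t Y : ℕ) (s₀ : K →+* ℂ) (ι : 𝓞 K →+* A)
    (r : Γ →* Matrix (Fin n) (Fin n) A) (f : Γ → 𝓞 K)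
    (ρ : ℕ) (k x : Fin ρ → Γ) (b : Γ → K) : Prop where
  set4 : Set4 t Y s₀ ι r f
  hρ : ρ ≤ n ^ 2
  hkx : ∀ i j, k i * x j ∈ S f t
  hdet : (mat f k x).det ≠ 0
  hb : ∀ g ∈ S f t, b g = f g
  hfac : ∀ u v, b (u * v) = ∑ i, ∑ j, b (u * x j) * ((mat f k x)⁻¹ j i) * b (k i * v)

end Pool.Agent.OneU74
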