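import Pool.Agent.W_7742u_h74.UMai

/-! # Families of representations which are near to a system -/

set_option autoImplicit false

noncomputable section

open Filter Topology NumberField

namespace Pool.Agent.OneU74

open Pool.Agent.GalSide Pool.Agent.OneI74
open Pool.Agent.OneJ74 (h₁ h₂)
open Pool.Agent.OneN74 (UpLE density_of_upLE unique_c)

variable {G : Type} [Group G] [TopologicalSpace G] [IsTopologicalGroup G] [CompactSpace G]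

/-- The conjugates of an algebraic number do not depend on the field. -/
theorem conj_eq {K K' : Type} [Field K] [Field K'] [CharZero K] [CharZero K']
    [Algebra.IsAlgebraic ℚ K'] (s : K →+* ℂ) (s' : K' →+* ℂ) (x : K) (x' : K')
    (h : s x = s' x') (σ : K →+* ℂ) : ∃ σ' : K' →+* ℂ, σ' x' = σ x := by
  have h1 : minpoly ℚ x = minpoly ℚ x' := by
    rw [← minpoly.algHom_eq s.toRatAlgHom s.injective x,
      ← minpoly.algHom_eq s'.toRatAlgHom s'.injective x']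
    exact congrArg (minpoly ℚ) h
  have h2 : σ x ∈ (minpoly ℚ x').rootSet ℂ := by
    rw [Polynomial.mem_rootSet]
    refine ⟨minpoly.ne_zero (Algebra.IsIntegral.isIntegral x'), ?_⟩
    rw [← h1]
    have h3 : Polynomial.aeval (σ.toRatAlgHom x) (minpoly ℚ x) = 0 := by
      rw [Polynomial.aeval_algHom_apply, minpoly.aeval, map_zero]
    exact h3
  rw [← Algebra.IsAlgebraic.range_eval_eq_rootSet_minpoly ℂ x'] at h2
  obtain ⟨ψ, hψ⟩ := h2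
  exact ⟨ψ.toRingHom, hψ⟩

/-- The representation `r` is near to the system `z`. -/
def Near (Φ : FrobeniusData G) (z : Nat.Primes → ℂ) (ε : ℝ) (T B : ℕ) {n : ℕ} {K A : Type}
    [Field K] [CommRing A] (s₀ : K →+* ℂ) (ι : 𝓞 K →+* A) (r : G →* Matrix (Fin n) (Fin n) A) :
    Prop :=
  (∀ x : 𝓞 K, ι x = 0 → (∀ σ : K →+* ℂ, ‖σ (x : K)‖ < B) → x = 0) ∧
  IsOpen ({g | r g = 1} : Set G) ∧
  ∃ X : Set Nat.Primes, UpLE X ε ∧ ∀ p ∉ X, ∃ c : 𝓞 K, s₀ (c : K) = z p ∧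
    (∀ σ : K →+* ℂ, ‖σ (c : K)‖ ≤ T) ∧ (r (Φ.frob p)).trace = ι c

/-- One member of the family. -/
theorem step (Φ : FrobeniusData G) {z : Nat.Primes → ℂ}
    (hz : ∀ ε : ℝ, 0 < ε → LogBound (1 + ε) (fun p => ‖z p‖ ^ 2))
    {n t : ℕ} (hn : 0 < n) (hnt : n ≤ t) {X₁ : Set Nat.Primes} {ε₁ ε₂ : ℝ} (hX₁ : UpLE X₁ ε₁)
    (h1 : ∀ p ∉ X₁, ∃ (K : Type) (_ : Field K) (_ : CharZero K) (_ : Algebra.IsAlgebraic ℚ K)
      (s : K →+* ℂ) (x : K), s x = z p ∧ ∀ σ : K →+* ℂ, ‖σ x‖ ≤ t)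
    (he1 : h₁ n * (ε₁ + ε₂) ≤ 1) (he2 : h₂ n * (ε₁ + ε₂) ≤ 1)
    (he3 : 4 * (n : ℝ) ^ 2 * ((t : ℝ) ^ 2 * ε₂) ≤ 1) (T H : ℕ) :
    ∃ B : ℕ, ∀ {K A : Type} [Field K] [CharZero K] [CommRing A] (s₀ : K →+* ℂ)
      (ι : 𝓞 K →+* A) (r : G →* Matrix (Fin n) (Fin n) A), Near Φ z ε₂ T B s₀ ι r →
      ∃ (U : Subgroup G) (_ : U.Normal) (R : G ⧸ U →* Matrix (Fin n) (Fin n) ℂ),
        IsOpen (U : Set G) ∧
        (∀ W : Submodule ℂ (Fin n → ℂ), (∀ g, ∀ w ∈ W, (R g).mulVec w ∈ W) → W = ⊥ ∨ W = ⊤) ∧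
        UpLE {p | z p ≠ (R (QuotientGroup.mk (Φ.frob p))).trace} ε₂ ∧
        (∀ g, r g = 1 → (R (QuotientGroup.mk g)).trace = n) ∧
        ∀ g c, ι c = (r g).trace → (∀ σ : K →+* ℂ, ‖σ (c : K)‖ ≤ H) →
          (R (QuotientGroup.mk g)).trace = s₀ (c : K) := by
  obtain ⟨B, hB⟩ : ∃ B : ℕ, B = ((n ^ 2 + 1) * t) ^ (n ^ 2 + 1) +
    (2 * n * t + (n + 1)) ^ (n + 1) + 2 * t + (t + T) + (T + n) * n ^ (2 * n ^ 2) +
    (H + n) * n ^ (2 * n ^ 2) + 1 := ⟨_, rfl⟩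
  refine ⟨B, fun {K A} _ _ _ s₀ ι r hr => ?_⟩
  obtain ⟨hN, hro, X₂, hX₂, h2⟩ := hr
  have hc : Cst n t B := ⟨hn, hnt, by omega, by omega⟩
  obtain ⟨U, hU, β, k1, k2, k3, k4, k5⟩ := main_u (T := T) Φ hz hc (by omega) (by omega) (by omega) hX₁ hX₂
    he1 he2 he3 s₀ ι hN r hro (fun p hp => by
      obtain ⟨c, hc1, hc2, hc3⟩ := h2 p hp
      refine ⟨c, hc1, hc2, fun hp1 σ => ?_, hc3⟩
      obtain ⟨K', _, _, _, s', x, hx1, hx2⟩ := h1 p hp1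
      obtain ⟨σ', hσ'⟩ := conj_eq s₀ s' (c : K) x (by rw [hc1, hx1]) σ
      rw [← hσ']
      exact hx2 σ')
  obtain ⟨R, hR1, hR2⟩ := k5 s₀
  refine ⟨U, hU, R, k1, hR2, ?_, fun g hg => ?_, fun g c hc1 hc2 => ?_⟩
  · simpa only [hR1] using k4
  · rw [(QuotientGroup.eq_one_iff g).2 (k2 g hg), map_one, Matrix.trace_one, Fintype.card_fin]
  · rw [hR1, ← k3 g c hc1 H hc2 (by omega)]

theorem fam_u (Φ : FrobeniusData G) {z : Nat.Primes → ℂ}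
    (hz : ∀ ε : ℝ, 0 < ε → LogBound (1 + ε) (fun p => ‖z p‖ ^ 2)) {n : ℕ} (hn : 0 < n)
    (hfam : ∀ ε : ℝ, 0 < ε → ∃ T : ℕ, ∀ B : ℕ, ∃ (K A : Type) (_ : Field K) (_ : CharZero K)
      (_ : Algebra.IsAlgebraic ℚ K) (_ : CommRing A) (s₀ : K →+* ℂ) (ι : 𝓞 K →+* A)
      (r : G →* Matrix (Fin n) (Fin n) A), Near Φ z ε T B s₀ ι r) :
    ∃ (U : Subgroup G) (_ : U.Normal) (R : G ⧸ U →* Matrix (Fin n) (Fin n) ℂ),
      IsOpen (U : Set G) ∧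
      (∀ W : Submodule ℂ (Fin n → ℂ), (∀ g, ∀ w ∈ W, (R g).mulVec w ∈ W) → W = ⊥ ∨ W = ⊤) ∧
      HasDensity {p | z p ≠ (R (QuotientGroup.mk (Φ.frob p))).trace} 0 ∧
      ∃ ε₀ : ℝ, 0 < ε₀ ∧ ∀ T H : ℕ, ∃ B : ℕ, ∀ {K A : Type} [Field K] [CharZero K] [CommRing A]
        (s₀ : K →+* ℂ) (ι : 𝓞 K →+* A) (r : G →* Matrix (Fin n) (Fin n) A),
        Near Φ z ε₀ T B s₀ ι r →
        (∀ g, r g = 1 → (R (QuotientGroup.mk g)).trace = n) ∧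
        ∀ g c, ι c = (r g).trace → (∀ σ : K →+* ℂ, ‖σ (c : K)‖ ≤ H) →
          (R (QuotientGroup.mk g)).trace = s₀ (c : K) := by
  have hn0 : (0 : ℝ) < n := by exact_mod_cast hn
  -- the first level
  obtain ⟨h, hh⟩ : ∃ h : ℕ, h = h₁ n + h₂ n := ⟨_, rfl⟩
  have hpos : 0 < h := by
    rw [hh]
    unfold h₁
    omega
  have hposr : (0 : ℝ) < h := by exact_mod_cast hpos
  obtain ⟨ε₁, hε₁⟩ : ∃ ε₁ : ℝ, ε₁ = 1 / (2 * h) := ⟨_, rfl⟩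
  have hε₁0 : 0 < ε₁ := by rw [hε₁]; positivity
  obtain ⟨T₁, hT₁⟩ := hfam ε₁ hε₁0
  obtain ⟨K₁, A₁, _, _, _, _, s₁, ι₁, r₁, -, -, X₁, hX₁, hX₁'⟩ := hT₁ 0
  obtain ⟨t, ht⟩ : ∃ t : ℕ, t = max T₁ n := ⟨_, rfl⟩
  have hnt : n ≤ t := by rw [ht]; exact le_max_right _ _
  have hTt : (T₁ : ℝ) ≤ t := by exact_mod_cast (by rw [ht]; exact le_max_left _ _ : T₁ ≤ t)
  have ht0 : (0 : ℝ) < t := lt_of_lt_of_le hn0 (by exact_mod_cast hnt)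
  have h1 : ∀ p ∉ X₁, ∃ (K : Type) (_ : Field K) (_ : CharZero K) (_ : Algebra.IsAlgebraic ℚ K)
      (s : K →+* ℂ) (x : K), s x = z p ∧ ∀ σ : K →+* ℂ, ‖σ x‖ ≤ t := by
    intro p hp
    obtain ⟨c, hc1, hc2, -⟩ := hX₁' p hp
    exact ⟨K₁, inferInstance, inferInstance, inferInstance, s₁, c, hc1, fun σ =>
      (hc2 σ).trans hTt⟩
  -- the second level
  obtain ⟨δ₁, hδ₁⟩ : ∃ δ₁ : ℝ, δ₁ = 1 / (8 * (n : ℝ) ^ 2) := ⟨_, rfl⟩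
  have hδ0 : 0 < δ₁ := by rw [hδ₁]; positivity
  have hδ2 : 4 * (n : ℝ) ^ 2 * (δ₁ + δ₁) < 2 := by
    have : 4 * (n : ℝ) ^ 2 * (δ₁ + δ₁) = 1 := by
      rw [hδ₁]
      field_simp
      norm_num
    rw [this]
    norm_num
  obtain ⟨e, he⟩ : ∃ e : ℝ → ℝ, ∀ δ, e δ = min (min ε₁ (1 / (4 * (n : ℝ) ^ 2 * (t : ℝ) ^ 2)))
      (min δ δ₁) := ⟨_, fun _ => rfl⟩
  have he0 : ∀ δ, 0 < δ → 0 < e δ := by
    intro δ hδ
    rw [he]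
    exact lt_min (lt_min hε₁0 (by positivity)) (lt_min hδ hδ0)
  have heδ : ∀ δ, e δ ≤ δ := fun δ => by
    rw [he]
    exact (min_le_right _ _).trans (min_le_left _ _)
  have heδ₁ : ∀ δ, e δ ≤ δ₁ := fun δ => by
    rw [he]
    exact (min_le_right _ _).trans (min_le_right _ _)
  have he1 : ∀ δ, e δ ≤ ε₁ := fun δ => by
    rw [he]
    exact (min_le_left _ _).trans (min_le_left _ _)
  have he2 : ∀ δ, e δ ≤ 1 / (4 * (n : ℝ) ^ 2 * (t : ℝ) ^ 2) := fun δ => by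
    rw [he]
    exact (min_le_left _ _).trans (min_le_right _ _)
  have hsum : ∀ δ, (h : ℝ) * (ε₁ + e δ) ≤ 1 := by
    intro δ
    calc (h : ℝ) * (ε₁ + e δ) ≤ h * (ε₁ + ε₁) :=
          mul_le_mul_of_nonneg_left (by linarith [he1 δ]) hposr.le
      _ = 1 := by
          rw [hε₁]
          field_simp
          norm_num
  have hh1 : ∀ δ, 0 < δ → (h₁ n : ℝ) * (ε₁ + e δ) ≤ 1 := by
    intro δ hδ
    refine le_trans (mul_le_mul_of_nonneg_right ?_ ?_) (hsum δ)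
    · exact_mod_cast (by omega : h₁ n ≤ h)
    · linarith [he0 δ hδ]
  have hh2 : ∀ δ, 0 < δ → (h₂ n : ℝ) * (ε₁ + e δ) ≤ 1 := by
    intro δ hδ
    refine le_trans (mul_le_mul_of_nonneg_right ?_ ?_) (hsum δ)
    · exact_mod_cast (by omega : h₂ n ≤ h)
    · linarith [he0 δ hδ]
  have hh3 : ∀ δ, 4 * (n : ℝ) ^ 2 * ((t : ℝ) ^ 2 * e δ) ≤ 1 := by
    intro δ
    have h2 := he2 δ
    rw [le_div_iff₀ (by positivity)] at h2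
    linarith
  have hstep := fun (δ : ℝ) (hδ : 0 < δ) (T H : ℕ) =>
    step Φ hz hn hnt hX₁ h1 (hh1 δ hδ) (hh2 δ hδ) (hh3 δ) T H
  obtain ⟨T₂, hT₂⟩ := hfam (e δ₁) (he0 _ hδ0)
  obtain ⟨B₂, hB₂⟩ := hstep δ₁ hδ0 T₂ 0
  obtain ⟨K₂, A₂, _, _, _, _, s₂, ι₂, r₂, hr₂⟩ := hT₂ B₂
  obtain ⟨U, hU, R, k1, k2, k3, -, -⟩ := hB₂ s₂ ι₂ r₂ hr₂
  have k3' : UpLE {p | z p ≠ (R (QuotientGroup.mk (Φ.frob p))).trace} δ₁ := k3.mono (heδ _)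
  refine ⟨U, hU, R, k1, k2, ?_, e δ₁, he0 _ hδ0, fun T H => ?_⟩
  · refine density_of_upLE fun δ hδ => ?_
    obtain ⟨T, hT⟩ := hfam (e δ) (he0 _ hδ)
    obtain ⟨B, hB⟩ := hstep δ hδ T 0
    obtain ⟨K, A, _, _, _, _, s, ι, r, hr⟩ := hT B
    obtain ⟨U', hU', R', l1, l2, l3, -, -⟩ := hB s ι r hr
    have h3 : ∀ g : G, (R (QuotientGroup.mk g)).trace = (R' (QuotientGroup.mk g)).trace :=
      unique_c Φ hn k1 l1 R R' k2 l2 z k3' (l3.mono (heδ₁ δ)) hδ2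
    simp only [h3]
    exact l3.mono (heδ δ)
  · obtain ⟨B, hB⟩ := hstep δ₁ hδ0 T H
    refine ⟨B, fun {K A} _ _ _ s ι r hr => ?_⟩
    obtain ⟨U', hU', R', l1, l2, l3, l4, l5⟩ := hB s ι r hr
    have h3 : ∀ g : G, (R (QuotientGroup.mk g)).trace = (R' (QuotientGroup.mk g)).trace :=
      unique_c Φ hn k1 l1 R R' k2 l2 z k3' (l3.mono (heδ _)) hδ2
    exact ⟨fun g hg => by rw [h3]; exact l4 g hg, fun g c hc1 hc2 => by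
      rw [h3]
      exact l5 g c hc1 hc2⟩

end Pool.Agent.OneU74
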