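import Pool.Agent.W_7742u_h74.UPol
import Pool.Agent.W_7742n_h74.CChr

/-! # The finite theorem (compare `W_7742j_h74/JFin.lean`) -/

set_option autoImplicit false

noncomputable section

open ComplexConjugate

namespace Pool.Agent.OneU74

open NumberField Pool.Agent.OneI74 Pool.Agent.GalSide
open Pool.Agent.OneJ74 (h₁ h₂)
open Pool.Agent.OneN74 (sum_sq)

variable {K A Γ : Type} [Field K] [CommRing A] [Group Γ] [Fintype Γ] {n : ℕ}
  {t Y : ℕ} {s₀ : K →+* ℂ}
  {ι : 𝓞 K →+* A} {r : Γ →* Matrix (Fin n) (Fin n) A}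

/-- Irreducibility does not depend on the embedding. -/
theorem mean_sq_all (β : Γ → 𝓞 K) (s₀ : K →+* ℂ) (k : ℕ)
    (R : (s : K →+* ℂ) → Γ →* Matrix (Fin n) (Fin n) ℂ) (hR : ∀ s g, (R s g).trace = s (β g : K))
    (h : ∑ g, ‖s₀ (β g : K)‖ ^ 2 = (Fintype.card Γ : ℝ) * k) (s : K →+* ℂ) :
    ∑ g, ‖s (β g : K)‖ ^ 2 = (Fintype.card Γ : ℝ) * k := by
  classical
  have h1 : ∀ t : K →+* ℂ, t (∑ g, (β g : K) * (β g⁻¹ : K)) =
      ((∑ g, ‖t (β g : K)‖ ^ 2 : ℝ) : ℂ) := by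
    intro t
    rw [map_sum, Complex.ofReal_sum]
    refine Finset.sum_congr rfl fun g _ => ?_
    have h2 := irr_trace_inv_eq (R t) g
    rw [hR, hR] at h2
    rw [map_mul, ← h2, Complex.ofReal_pow]
    have h3 : star (t (β g⁻¹ : K)) = conj (t (β g⁻¹ : K)) := rfl
    rw [h3, Complex.norm_conj]
    exact Complex.conj_mul' _
  have h2 : (∑ g, (β g : K) * (β g⁻¹ : K)) = (Fintype.card Γ : K) * k := by
    apply s₀.injective
    rw [h1, h, map_mul, map_natCast, map_natCast]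
    push_cast
    rfl
  have h3 := h1 s
  rw [h2, map_mul, map_natCast, map_natCast] at h3
  have h4 : (((Fintype.card Γ : ℝ) * k : ℝ) : ℂ) = ((∑ g, ‖s (β g : K)‖ ^ 2 : ℝ) : ℂ) := by
    rw [← h3]
    push_cast
    rfl
  exact (Complex.ofReal_injective h4).symm

theorem Set4.finite_main {f : Γ → 𝓞 K} (H : Set4 t Y s₀ ι r f) :
    ∃ β : Γ → 𝓞 K,
      (∀ g c, ι c = (r g).trace →
        (∀ σ : K →+* ℂ, ‖σ ((c - β g : 𝓞 K) : K)‖ * (n : ℝ) ^ (2 * n ^ 2) < Y) → c = β g) ∧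
      (∀ u v, β (u * v) = β (v * u)) ∧
      ∀ s : K →+* ℂ, ∃ R : Γ →* Matrix (Fin n) (Fin n) ℂ, (∀ g, (R g).trace = s (β g : K)) ∧
        ∀ W : Submodule ℂ (Fin n → ℂ), (∀ g, ∀ w ∈ W, (R g).mulVec w ∈ W) → W = ⊥ ∨ W = ⊤ := by
  classical
  obtain ⟨ρ, k, x, b, H'⟩ := H.exists_bdat
  obtain rfl := H'.rank_eq
  have hn0 : 0 < n := H.cst.hn
  -- representations
  have hrep : ∀ s : K →+* ℂ, ∃ R : Γ →* Matrix (Fin n) (Fin n) ℂ, ∀ g, (R g).trace = s (b g) := by
    intro s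
    refine exists_rep (fun g => s (b g)) (fun u v => by rw [H'.comm]) ?_ ?_
    · show s (b 1) = n
      rw [H'.b_one, map_natCast]
    · intro y
      have h1 := pol_map s b (n + 1) y
      rw [H'.pol_all y, map_zero] at h1
      exact h1.symm
  have hcard : 0 < Fintype.card Γ := Fintype.card_pos
  have hfinord : ∀ (R : Γ →* Matrix (Fin n) (Fin n) ℂ) (g : Γ), R g ^ Fintype.card Γ = 1 := by
    intro R g
    rw [← map_pow, pow_card_eq_one, map_one]
  have hbnorm : ∀ (s : K →+* ℂ) (g : Γ), ‖s (b g)‖ ≤ n := by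
    intro s g
    obtain ⟨R, hR⟩ := hrep s
    rw [← hR g]
    exact norm_trace_le hcard (R g) (hfinord R g)
  have hbint : ∀ g, IsIntegral ℤ (b g) := by
    intro g
    obtain ⟨R, hR⟩ := hrep s₀
    obtain ⟨a, ha⟩ := OneP74.exists_exponents hcard (R g) (hfinord R g) _
      (Complex.isPrimitiveRoot_exp (Fintype.card Γ) hcard.ne')
    have hz := Complex.isPrimitiveRoot_exp (Fintype.card Γ) hcard.ne'
    have h1 : IsIntegral ℤ ((R g).trace) := by
      have h2 := ha 1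
      rw [pow_one] at h2
      rw [h2]
      exact IsIntegral.sum _ fun i _ => (hz.isIntegral hcard).pow _
    rw [hR g] at h1
    exact (isIntegral_algHom_iff s₀.toIntAlgHom s₀.injective).1 h1
  have hβ : ∀ g, ∃ w : 𝓞 K, (w : K) = b g := fun g => ⟨⟨b g, hbint g⟩, rfl⟩
  choose β hβ' using hβ
  have hdetnorm : ∀ s : K →+* ℂ, ‖s (mat f k x).det‖ ≤ (n : ℝ) ^ (2 * n ^ 2) := by
    intro s
    have h1 : s (mat f k x).det = (Matrix.of fun i j => s (b (k i * x j)) :
        Matrix (Fin (n ^ 2)) (Fin (n ^ 2)) ℂ).det := by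
      rw [RingHom.map_det]
      congr 1
      ext i j
      show s (f (k i * x j) : K) = s (b (k i * x j))
      rw [H'.hb _ (H'.hkx i j)]
    have h2 := Pool.Agent.OneJ74.hadamard (Matrix.of fun i j => s (b (k i * x j)) :
        Matrix (Fin (n ^ 2)) (Fin (n ^ 2)) ℂ)
    have h3 : ∏ i : Fin (n ^ 2), ∑ j : Fin (n ^ 2),
        ‖(Matrix.of fun i j => s (b (k i * x j)) :
        Matrix (Fin (n ^ 2)) (Fin (n ^ 2)) ℂ) i j‖ ^ 2 ≤ ∏ _i : Fin (n ^ 2), (n : ℝ) ^ 4 := by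
      refine Finset.prod_le_prod (fun i _ => Finset.sum_nonneg fun j _ => sq_nonneg _) fun i _ => ?_
      calc ∑ j : Fin (n ^ 2), ‖(Matrix.of fun i j => s (b (k i * x j)) :
            Matrix (Fin (n ^ 2)) (Fin (n ^ 2)) ℂ) i j‖ ^ 2
          ≤ ∑ _j : Fin (n ^ 2), (n : ℝ) ^ 2 := by
            refine Finset.sum_le_sum fun j _ => ?_
            exact pow_le_pow_left₀ (norm_nonneg _) (hbnorm s _) 2
        _ = (n : ℝ) ^ 4 := by
            rw [Finset.sum_const, Finset.card_univ, Fintype.card_fin, nsmul_eq_mul]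
            push_cast
            ring
    rw [Finset.prod_const, Finset.card_univ, Fintype.card_fin] at h3
    rw [← h1] at h2
    have h4 : ‖s (mat f k x).det‖ ^ 2 ≤ ((n : ℝ) ^ (2 * n ^ 2)) ^ 2 := by
      refine (h2.trans h3).trans (le_of_eq ?_)
      rw [← pow_mul, ← pow_mul]
      congr 1
      ring
    exact le_of_sq_le_sq h4 (by positivity)
  have hcor : ∀ g c, ι c = (r g).trace →
      (∀ σ : K →+* ℂ, ‖σ ((c - β g : 𝓞 K) : K)‖ * (n : ℝ) ^ (2 * n ^ 2) < Y) → c = β g := by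
    intro g c hc hs
    obtain ⟨z, hz, hz2⟩ := H'.cor g c hc
    have e1 : ((c - β g : 𝓞 K) : K) = (c : K) - b g := by
      rw [← hβ' g]
      exact map_sub (algebraMap (𝓞 K) K) c (β g)
    have h1 : z = 0 := by
      refine H.hN z hz fun σ => ?_
      rw [hz2, map_mul, norm_mul, mul_comm]
      refine lt_of_le_of_lt ?_ (hs σ)
      rw [e1]
      exact mul_le_mul_of_nonneg_left (hdetnorm σ) (norm_nonneg _)
    rw [h1] at hz2
    have h2 : (mat f k x).det * ((c : K) - b g) = 0 := by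
      rw [← hz2]
      rfl
    rcases mul_eq_zero.1 h2 with h3 | h3
    · exact absurd h3 H'.hdet
    · apply NumberField.RingOfIntegers.ext
      rw [hβ']
      exact sub_eq_zero.1 h3
  have hβR : ∀ s : K →+* ℂ, ∃ R : Γ →* Matrix (Fin n) (Fin n) ℂ, ∀ g, (R g).trace = s (β g : K) :=
    fun s => by
      obtain ⟨R, hR⟩ := hrep s
      exact ⟨R, fun g => by rw [hR g, hβ' g]⟩
  choose R hR using hβR
  obtain ⟨m, hm⟩ := sum_sq (R s₀)
  simp only [hR] at hm
  have hlt := H'.lt_two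
  simp only [← hβ'] at hlt
  rw [hm] at hlt
  have hG : (0 : ℝ) < Fintype.card Γ := by exact_mod_cast hcard
  have hm1 : m ≤ 1 := by
    have h1 : (m : ℝ) < 2 := by
      by_contra h2
      have h3 := not_lt.1 h2
      nlinarith
    have h4 : m < 2 := by exact_mod_cast h1
    omega
  refine ⟨β, hcor, fun u v => ?_, fun s => ⟨R s, hR s, fun W hW => ?_⟩⟩
  · apply NumberField.RingOfIntegers.ext
    rw [hβ', hβ', H'.comm]
  · refine eq_bot_or_eq_top (R s) ?_ W hW
    simp only [hR]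
    rw [mean_sq_all β s₀ m R hR hm s]
    have h1 : (m : ℝ) ≤ 1 := by exact_mod_cast hm1
    nlinarith

end Pool.Agent.OneU74
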