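import Pool.Agent.W_7742u_h74.UFin
import Pool.Agent.W_7742u_h74.UUpl

/-! # One representation with small lifts of the trace up to a set of small upper density -/

set_option autoImplicit false

noncomputable section

open Filter Topology NumberField

namespace Pool.Agent.OneU74

open Pool.Agent.GalSide Pool.Agent.OneI74
open Pool.Agent.OneJ74 (h₁ h₂)
open Pool.Agent.OneN74 (UpLE energy_gen)

variable {G : Type} [Group G] [TopologicalSpace G] [IsTopologicalGroup G] [CompactSpace G]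

theorem main_u (Φ : FrobeniusData G) {z : Nat.Primes → ℂ}
    (hz : ∀ ε : ℝ, 0 < ε → LogBound (1 + ε) (fun p => ‖z p‖ ^ 2))
    {n t Y T : ℕ} (hc : Cst n t Y) (h2t : 2 * t < Y) (hTY : t + T < Y)
    (hTW : (T + n) * n ^ (2 * n ^ 2) < Y)
    {X₁ X₂ : Set Nat.Primes} {ε₁ ε₂ : ℝ} (hX₁ : UpLE X₁ ε₁) (hX₂ : UpLE X₂ ε₂)
    (he1 : h₁ n * (ε₁ + ε₂) ≤ 1) (he2 : h₂ n * (ε₁ + ε₂) ≤ 1)
    (he3 : 4 * (n : ℝ) ^ 2 * ((t : ℝ) ^ 2 * ε₂) ≤ 1)
    {K A : Type} [Field K] [CommRing A] (s₀ : K →+* ℂ) (ι : 𝓞 K →+* A)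
    (hN : ∀ x : 𝓞 K, ι x = 0 → (∀ σ : K →+* ℂ, ‖σ (x : K)‖ < Y) → x = 0)
    (r : G →* Matrix (Fin n) (Fin n) A) (hr : IsOpen ({g | r g = 1} : Set G))
    (h : ∀ p ∉ X₂, ∃ c : 𝓞 K, s₀ (c : K) = z p ∧ (∀ σ : K →+* ℂ, ‖σ (c : K)‖ ≤ T) ∧
      (p ∉ X₁ → ∀ σ : K →+* ℂ, ‖σ (c : K)‖ ≤ t) ∧ (r (Φ.frob p)).trace = ι c) :
    ∃ (U : Subgroup G) (_ : U.Normal) (β : G ⧸ U → 𝓞 K),
      IsOpen (U : Set G) ∧ (∀ g, r g = 1 → g ∈ U) ∧
      (∀ g c, ι c = (r g).trace → ∀ H : ℕ, (∀ σ : K →+* ℂ, ‖σ (c : K)‖ ≤ H) →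
        (H + n) * n ^ (2 * n ^ 2) < Y → c = β (QuotientGroup.mk g)) ∧
      UpLE {p | z p ≠ s₀ (β (QuotientGroup.mk (Φ.frob p)) : K)} ε₂ ∧
      ∀ s : K →+* ℂ, ∃ R : G ⧸ U →* Matrix (Fin n) (Fin n) ℂ,
        (∀ x, (R x).trace = s (β x : K)) ∧
        ∀ W : Submodule ℂ (Fin n → ℂ), (∀ g, ∀ w ∈ W, (R g).mulVec w ∈ W) → W = ⊥ ∨ W = ⊤ := by
  classical
  have hn := hc.hn
  have hn0 : (0 : ℝ) < n := by exact_mod_cast hn
  have hU₀ : IsOpen ((r.ker : Subgroup G) : Set G) := hr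
  have hfin : Finite (G ⧸ r.ker) := Subgroup.quotient_finite_of_isOpen r.ker hU₀
  let _ : Fintype (G ⧸ r.ker) := Fintype.ofFinite _
  have hG : (0 : ℝ) < Fintype.card (G ⧸ r.ker) := by exact_mod_cast Fintype.card_pos
  obtain ⟨ρ, hρ⟩ : ∃ ρ : G ⧸ r.ker →* Matrix (Fin n) (Fin n) A,
      ∀ g : G, ρ (QuotientGroup.mk g) = r g :=
    ⟨QuotientGroup.lift r.ker r le_rfl, fun g => rfl⟩
  have hTc : ∀ x y, (ρ (x * y)).trace = (ρ (y * x)).trace := by
    intro x y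
    rw [map_mul, map_mul, Matrix.trace_mul_comm]
  -- the lift
  obtain ⟨F, hF1, hF2⟩ : ∃ F : A → 𝓞 K,
      (∀ a, (∀ σ : K →+* ℂ, ‖σ (F a : K)‖ ≤ t) → ι (F a) = a) ∧
      ∀ a c, ι c = a → (∀ σ : K →+* ℂ, ‖σ (c : K)‖ ≤ t) → F a = c := by
    refine ⟨fun a => if h : ∃ c : 𝓞 K, ι c = a ∧ ∀ σ : K →+* ℂ, ‖σ (c : K)‖ ≤ t then h.choose
      else ((t + 1 : ℕ) : 𝓞 K), fun a ha => ?_, fun a c hc1 hc2 => ?_⟩
    · by_cases h1 : ∃ c : 𝓞 K, ι c = a ∧ ∀ σ : K →+* ℂ, ‖σ (c : K)‖ ≤ t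
      · simp only [dif_pos h1]
        exact h1.choose_spec.1
      · simp only [dif_neg h1] at ha
        exfalso
        have h2 := ha s₀
        have h3 : (((t + 1 : ℕ) : 𝓞 K) : K) = ((t + 1 : ℕ) : K) :=
          map_natCast (algebraMap (𝓞 K) K) (t + 1)
        rw [h3, map_natCast, Complex.norm_natCast] at h2
        push_cast at h2
        linarith
    · have h1 : ∃ c : 𝓞 K, ι c = a ∧ ∀ σ : K →+* ℂ, ‖σ (c : K)‖ ≤ t := ⟨c, hc1, hc2⟩
      simp only [dif_pos h1]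
      rw [← sub_eq_zero]
      refine hN _ (by rw [map_sub, h1.choose_spec.1, hc1, sub_self]) fun σ => ?_
      have h3 : ((h1.choose - c : 𝓞 K) : K) = (h1.choose : K) - (c : K) :=
        map_sub (algebraMap (𝓞 K) K) _ _
      rw [h3, map_sub]
      have h4 := norm_sub_le (σ (h1.choose : K)) (σ (c : K))
      have h5 := h1.choose_spec.2 σ
      have h6 := hc2 σ
      have h7 : (2 : ℝ) * t < Y := by exact_mod_cast h2t
      linarith
  obtain ⟨f, hf⟩ : ∃ f : G ⧸ r.ker → 𝓞 K, ∀ x, f x = F (ρ x).trace := ⟨_, fun _ => rfl⟩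
  have hfS : ∀ x ∈ S f t, ι (f x) = (ρ x).trace := by
    intro x hx
    rw [hf]
    refine hF1 _ fun σ => ?_
    rw [← hf]
    exact hx σ
  have hfm : ∀ x c, ι c = (ρ x).trace → (∀ σ : K →+* ℂ, ‖σ (c : K)‖ ≤ t) → f x = c := by
    intro x c h1 h2
    rw [hf]
    exact hF2 _ _ h1 h2
  have hfc : ∀ x y, f (x * y) = f (y * x) := by
    intro x y
    rw [hf, hf, hTc]
  have hSc : ∀ (x y : G ⧸ r.ker), x * y ∈ S f t ↔ y * x ∈ S f t := by
    intro x y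
    show (∀ σ : K →+* ℂ, ‖σ (f (x * y) : K)‖ ≤ t) ↔ (∀ σ : K →+* ℂ, ‖σ (f (y * x) : K)‖ ≤ t)
    rw [hfc x y]
  -- the number of elements without small lift
  have hcard : ∀ h : ℕ, h * (ε₁ + ε₂) ≤ 1 →
      h * Nat.card {x // x ∉ S f t} ≤ Nat.card (G ⧸ r.ker) := by
    intro m hm
    have h1 := energy_gen Φ (a := (X₁ ∪ X₂).indicator fun _ : Nat.Primes => (1 : ℝ))
      (fun p => Set.indicator_nonneg (fun _ _ => zero_le_one) _)
      (logBound_ind (UpLE_add hX₁ hX₂ subset_rfl)) r.ker hU₀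
      (fun x => if x ∈ S f t then 0 else 1)
      (fun x y => by simp only [hSc x y]) Pool.Agent.OneM74.UMod_empty (fun p _ => by
        by_cases hS : (QuotientGroup.mk (Φ.frob p) : G ⧸ r.ker) ∈ S f t
        · rw [if_pos hS]
          exact Set.indicator_nonneg (fun _ _ => zero_le_one) _
        · rw [if_neg hS, Set.indicator_of_mem]
          by_contra hp
          rw [Set.mem_union, not_or] at hp
          obtain ⟨c, -, -, hc3, hc4⟩ := h p hp.2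
          have h3 := hfm (QuotientGroup.mk (Φ.frob p)) c (by rw [hρ, hc4]) (hc3 hp.1)
          refine hS fun σ => ?_
          rw [h3]
          exact hc3 hp.1 σ)
    have h2 : ∑ x, (if x ∈ S f t then (0 : ℝ) else 1) = Nat.card {x // x ∉ S f t} := by
      have h3 : ∀ x, (if x ∈ S f t then (0 : ℝ) else 1) = if x ∉ S f t then 1 else 0 := fun x => by
        by_cases hx : x ∈ S f t
        · rw [if_pos hx, if_neg (not_not.2 hx)]
        · rw [if_neg hx, if_pos hx]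
      simp only [h3]
      rw [← Finset.sum_filter, Finset.sum_const, nsmul_eq_mul, mul_one, Nat.card_eq_fintype_card,
        Fintype.card_subtype]
    rw [h2] at h1
    rw [Nat.card_eq_fintype_card (α := G ⧸ r.ker)]
    have h4 : (m : ℝ) * Nat.card {x // x ∉ S f t} ≤ Fintype.card (G ⧸ r.ker) := by
      calc (m : ℝ) * Nat.card {x // x ∉ S f t} ≤
            m * ((ε₁ + ε₂) * Fintype.card (G ⧸ r.ker)) :=
            mul_le_mul_of_nonneg_left h1 (Nat.cast_nonneg _)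
        _ = (m * (ε₁ + ε₂)) * Fintype.card (G ⧸ r.ker) := by ring
        _ ≤ 1 * Fintype.card (G ⧸ r.ker) := mul_le_mul_of_nonneg_right hm hG.le
        _ = _ := one_mul _
    exact_mod_cast h4
  -- the lift is the trace for the primes outside `X₂`
  have hTYr : (t : ℝ) + T < Y := by exact_mod_cast hTY
  have hpt : ∀ p : Nat.Primes, (if (QuotientGroup.mk (Φ.frob p) : G ⧸ r.ker) ∈ S f t then
        ‖s₀ (f (QuotientGroup.mk (Φ.frob p)) : K)‖ ^ 2 else 0) ≤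
      ‖z p‖ ^ 2 + (t : ℝ) ^ 2 * X₂.indicator (fun _ : Nat.Primes => (1 : ℝ)) p := by
    intro p
    have hi : 0 ≤ (t : ℝ) ^ 2 * X₂.indicator (fun _ : Nat.Primes => (1 : ℝ)) p :=
      mul_nonneg (sq_nonneg _) (Set.indicator_nonneg (fun _ _ => zero_le_one) _)
    have hs := sq_nonneg ‖z p‖
    split_ifs with hS
    · by_cases hp : p ∈ X₂
      · rw [Set.indicator_of_mem hp, mul_one]
        have h1 := pow_le_pow_left₀ (norm_nonneg _) (hS s₀) 2
        linarith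
      · obtain ⟨c, hc1, hc2, -, hc4⟩ := h p hp
        have h1 : f (QuotientGroup.mk (Φ.frob p)) = c := by
          rw [← sub_eq_zero]
          refine hN _ (by rw [map_sub, hfS _ hS, hρ, hc4, sub_self]) fun σ => ?_
          have h3 : ((f (QuotientGroup.mk (Φ.frob p)) - c : 𝓞 K) : K) =
              (f (QuotientGroup.mk (Φ.frob p)) : K) - (c : K) :=
            map_sub (algebraMap (𝓞 K) K) _ _
          rw [h3, map_sub]
          have h4 := norm_sub_le (σ (f (QuotientGroup.mk (Φ.frob p)) : K)) (σ (c : K))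
          have h5 := hS σ
          have h6 := hc2 σ
          linarith
        rw [h1, hc1]
        linarith
    · linarith
  have hE0 : ∀ ε : ℝ, 0 < ε → LogBound ((1 + (t : ℝ) ^ 2 * ε₂) + ε)
      (fun p => ‖z p‖ ^ 2 + (t : ℝ) ^ 2 * X₂.indicator (fun _ : Nat.Primes => (1 : ℝ)) p) := by
    intro ε hε
    have hη : 0 < ε / 2 / ((t : ℝ) ^ 2 + 1) := by positivity
    filter_upwards [hz (ε / 2) (by positivity), logBound_ind hX₂ _ hη,
      Chb_log.eventually_gt_atTop 0] with s h1 h2 hL'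
    have h3 := h1.1.hasSum.add (h2.1.hasSum.mul_left ((t : ℝ) ^ 2))
    have e1 : (fun p : Nat.Primes => (‖z p‖ ^ 2 +
        (t : ℝ) ^ 2 * X₂.indicator (fun _ : Nat.Primes => (1 : ℝ)) p) *
        ((p : ℕ) : ℝ) ^ (-s)) = fun p : Nat.Primes => ‖z p‖ ^ 2 * ((p : ℕ) : ℝ) ^ (-s) +
        (t : ℝ) ^ 2 * (X₂.indicator (fun _ : Nat.Primes => (1 : ℝ)) p * ((p : ℕ) : ℝ) ^ (-s)) := by
      funext p
      ring
    rw [e1]
    refine ⟨h3.summable, ?_⟩
    rw [h3.tsum_eq]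
    have h4 := mul_le_mul_of_nonneg_left h2.2 (sq_nonneg (t : ℝ))
    have h5 : (t : ℝ) ^ 2 * (ε / 2 / ((t : ℝ) ^ 2 + 1)) ≤ ε / 2 := by
      rw [mul_div_assoc', div_le_iff₀ (by positivity)]
      nlinarith [sq_nonneg (t : ℝ)]
    have h6 : (t : ℝ) ^ 2 * ((ε₂ + ε / 2 / ((t : ℝ) ^ 2 + 1)) * Real.log (1 / (s - 1))) ≤
        ((t : ℝ) ^ 2 * ε₂ + ε / 2) * Real.log (1 / (s - 1)) := by
      calc (t : ℝ) ^ 2 * ((ε₂ + ε / 2 / ((t : ℝ) ^ 2 + 1)) * Real.log (1 / (s - 1)))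
          = ((t : ℝ) ^ 2 * ε₂ + (t : ℝ) ^ 2 * (ε / 2 / ((t : ℝ) ^ 2 + 1))) *
            Real.log (1 / (s - 1)) := by ring
        _ ≤ _ := mul_le_mul_of_nonneg_right (by linarith) hL'.le
    have h7 := h1.2
    calc _ ≤ (1 + ε / 2) * Real.log (1 / (s - 1)) +
          ((t : ℝ) ^ 2 * ε₂ + ε / 2) * Real.log (1 / (s - 1)) := by linarith
      _ = _ := by ring
  have hen0 := energy_gen Φ
    (a := fun p => ‖z p‖ ^ 2 + (t : ℝ) ^ 2 * X₂.indicator (fun _ : Nat.Primes => (1 : ℝ)) p)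
    (fun p => add_nonneg (sq_nonneg _)
      (mul_nonneg (sq_nonneg _) (Set.indicator_nonneg (fun _ _ => zero_le_one) _))) hE0 r.ker hU₀
    (fun x => if x ∈ S f t then ‖s₀ (f x : K)‖ ^ 2 else 0)
    (fun x y => by simp only [hSc x y, hfc x y]) Pool.Agent.OneM74.UMod_empty (fun p _ => hpt p)
  have hle : 1 + (t : ℝ) ^ 2 * ε₂ ≤ 1 + 1 / (4 * (n : ℝ) ^ 2) := by
    have h1 : (t : ℝ) ^ 2 * ε₂ ≤ 1 / (4 * (n : ℝ) ^ 2) := by
      rw [le_div_iff₀ (by positivity)]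
      linarith
    linarith
  have Hs : Set4 t Y s₀ ι ρ f := by
    refine ⟨hc, hN, hfS, hfm, hfc, hcard _ he1, hcard _ he2, fun q hq1 hq2 => ?_⟩
    have h1 : ∑ x, q x ≤ ∑ x, (if x ∈ S f t then ‖s₀ (f x : K)‖ ^ 2 else 0) := by
      refine Finset.sum_le_sum fun x _ => ?_
      split_ifs with hx
      · exact hq1 x
      · exact hq2 x hx
    exact h1.trans (hen0.trans (mul_le_mul_of_nonneg_right hle hG.le))
  obtain ⟨β, hcor, hcomm, hrep⟩ := Hs.finite_main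
  have hnorm : ∀ (s : K →+* ℂ) (x : G ⧸ r.ker), ‖s (β x : K)‖ ≤ n := by
    intro s x
    obtain ⟨R, hR, -⟩ := hrep s
    rw [← hR]
    refine norm_trace_le (m := Fintype.card (G ⧸ r.ker)) Fintype.card_pos _ ?_
    rw [← map_pow, pow_card_eq_one, map_one]
  have hcor' : ∀ g c, ι c = (r g).trace → ∀ H : ℕ, (∀ σ : K →+* ℂ, ‖σ (c : K)‖ ≤ H) →
        (H + n) * n ^ (2 * n ^ 2) < Y → c = β (QuotientGroup.mk g) := by
    intro g c hgc H hH hHY
    refine hcor _ _ (by rw [hρ]; exact hgc) fun σ => ?_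
    have h3 : ((c - β (QuotientGroup.mk g) : 𝓞 K) : K) = (c : K) - (β (QuotientGroup.mk g) : K) :=
      map_sub (algebraMap (𝓞 K) K) _ _
    rw [h3, map_sub]
    have h4 : ‖σ (c : K) - σ (β (QuotientGroup.mk g) : K)‖ ≤ H + n :=
      (norm_sub_le _ _).trans (add_le_add (hH σ) (hnorm σ _))
    have h5 : ((H : ℝ) + n) * (n : ℝ) ^ (2 * n ^ 2) < Y := by exact_mod_cast hHY
    exact (mul_le_mul_of_nonneg_right h4 (by positivity)).trans_lt h5
  refine ⟨r.ker, inferInstance, β, hU₀, fun g hg => hg, hcor', ?_, hrep⟩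
  refine UpLE_mono hX₂ fun p hp => ?_
  by_contra hpX
  obtain ⟨c, hc1, hc2, -, hc4⟩ := h p hpX
  have h1 := hcor' (Φ.frob p) c hc4.symm T hc2 hTW
  apply hp
  rw [← h1, hc1]

end Pool.Agent.OneU74
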