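import Pool.Agent.W_7742u_h74.UStA

/-! # Definitions for the statement: representations which are nearly attached to polynomials -/

set_option autoImplicit false

noncomputable section

namespace Pool.Agent.Crit74

open NumberField Polynomial

/-- The field `K` is embedded in `ℂ` by `s`, and `ι : 𝓞 K → A` is a homomorphism from the ring of the
algebraic integers of `K`.  The representation `r` over `A` has open kernel and is attached to the
polynomials `P p` over `ℂ` (characteristic polynomials of degree `n`; the trace is the coefficient of
degree `n - 1` up to the sign) up to a set of primes of upper density at most `ε`: for all primes `p`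
outside such a set the trace of `P p` is an algebraic integer `c` of `K` all of whose conjugates have
absolute value at most `T`, and the trace of `r (F p)` is `ι c`.  For all `p` in `V` the coefficients of
`P p` are algebraic integers of `K`, `r` is unramified at `p`, and the characteristic polynomial of
`r (F p)` is the image of `P p`. -/
def NearlyAttached (F : Nat.Primes → GQ) {K A : Type} [Field K] [CommRing A] {n : ℕ} (P : ℕ → ℂ[X])
    (V : Set Nat.Primes) (s : K →+* ℂ) (T ε : ℝ) (ι : 𝓞 K →+* A) (r : GQ →* GL (Fin n) A) : Prop :=
  IsOpen (r.ker : Set GQ) ∧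
    MeanLE ε ({p : Nat.Primes | ¬ ∃ c : 𝓞 K, s (c : K) = -(P p).coeff (n - 1) ∧
      (∀ σ : K →+* ℂ, ‖σ (c : K)‖ ≤ T) ∧ (r (F p)).val.trace = ι c}.indicator 1) ∧
    ∀ p ∈ V, Unramified r p ∧ ∃ Q : (𝓞 K)[X], Q.map (s.comp (algebraMap (𝓞 K) K)) = P p ∧
      (r (F p)).val.charpoly = Q.map ι

end Pool.Agent.Crit74
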