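import Pool.Agent.W_7742u_h74.UFam
import Pool.Agent.W_7742u_h74.UCpx
import Pool.Agent.W_7742u_h74.USt3
import Pool.Agent.W_7742n_h74.NFamB

/-! # Families of representations which are nearly attached to a cuspidal system -/

set_option autoImplicit false

noncomputable section

open Filter Topology

namespace Pool.Agent.Crit74

open NumberField Polynomial
open Pool.Agent.OneM74 Pool.Agent.GalSide Pool.Agent.OneP74 Pool.Agent.OneI74 Pool.Agent.OneN74
open Pool.Agent.Cheb Pool.Agent.GL74 Pool.Agent.GLForm74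
open Pool.Agent.OneU74 (Near fam_u ind_mul UpLE_union)

variable {n N : ℕ}

/-- For all `ε` there is a `T` such that there are representations which are nearly attached, over rings
such that the nonzero elements of the kernel of `𝓞 K → A` have arbitrarily large conjugates. -/
def NearFamily (n : ℕ) (F : Nat.Primes → GQ) (P : ℕ → ℂ[X]) (V : Set Nat.Primes) : Prop :=
  ∀ ε : ℝ, 0 < ε → ∃ T : ℝ, ∀ B : ℝ, ∃ (K : Type) (_ : Field K) (_ : CharZero K)
    (_ : Algebra.IsAlgebraic ℚ K) (s : K →+* ℂ) (A : Type) (_ : CommRing A) (ι : 𝓞 K →+* A)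
    (r : GQ →* GL (Fin n) A),
    (∀ x : 𝓞 K, x ≠ 0 → ι x = 0 → ∃ σ : K →+* ℂ, B ≤ ‖σ (x : K)‖) ∧
    NearlyAttached F P V s T ε ι r

theorem upLE_of_mean {X : Set Nat.Primes} {ε : ℝ} (h : MeanLE ε (X.indicator 1)) : UpLE X ε := by
  intro δ hδ
  filter_upwards [h δ hδ] with s hs
  have e1 : (fun p : Nat.Primes => X.indicator (1 : Nat.Primes → ℝ) p * ((p : ℕ) : ℝ) ^ (-s)) =
      X.indicator (fun q : Nat.Primes => ((q : ℕ) : ℝ) ^ (-s)) := funext fun p => ind_mul X s p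
  have h2 := hs.2
  rw [e1] at h2
  exact h2

/-- The conjugates of an algebraic integer are bounded. -/
theorem exists_H (w : ℂ) : ∃ H : ℕ, ∀ {K : Type} [Field K] [CharZero K] (s : K →+* ℂ) (x : 𝓞 K),
    s (x : K) = w → ∀ σ : K →+* ℂ, ‖σ (x : K)‖ ≤ H := by
  classical
  obtain ⟨H, hH⟩ := exists_nat_ge (∑ α ∈ ((minpoly ℚ w).aroots ℂ).toFinset, ‖α‖)
  refine ⟨H, fun {K} _ _ s x hx σ => le_trans ?_ hH⟩
  have h0 : IsIntegral ℚ (x : K) := (RingOfIntegers.isIntegral_coe x).tower_top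
  have h1 : minpoly ℚ (x : K) = minpoly ℚ w := by
    rw [← minpoly.algHom_eq s.toRatAlgHom s.injective (x : K)]
    exact congrArg (minpoly ℚ) hx
  refine Finset.single_le_sum (f := fun α : ℂ => ‖α‖) (fun α _ => norm_nonneg _) ?_
  rw [Multiset.mem_toFinset, Polynomial.mem_aroots, ← h1]
  refine ⟨minpoly.ne_zero h0, ?_⟩
  have h3 : Polynomial.aeval (σ.toRatAlgHom (x : K)) (minpoly ℚ (x : K)) = 0 := by
    rw [Polynomial.aeval_algHom_apply, minpoly.aeval, map_zero]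
  exact h3

theorem near_of_attached {F : Nat.Primes → GQ} (Φ : FrobeniusData GQ) (hΦ : Φ.frob = F)
    (hN : 0 < N) {P : ℕ → ℂ[X]} {V : Set Nat.Primes} {T ε : ℝ} {B T' : ℕ} (hT' : T ≤ T') {B' : ℝ}
    (hB' : (B : ℝ) ≤ B') {K A : Type} [Field K] [CommRing A] {s : K →+* ℂ} {ι : 𝓞 K →+* A}
    {r : GQ →* GL (Fin n) A}
    (hk : ∀ x : 𝓞 K, x ≠ 0 → ι x = 0 → ∃ σ : K →+* ℂ, B' ≤ ‖σ (x : K)‖)
    (h : NearlyAttached F P V s T ε ι r) :
    Near Φ (fun p : Nat.Primes => if (p : ℕ) ∣ N then 0 else -(P p).coeff (n - 1)) ε T' B s ι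
      ((Units.coeHom _).comp r) := by
  obtain ⟨h1, h2, -⟩ := h
  refine ⟨fun x hx hs => ?_, Pool.Agent.OneI74.isOpen_ker r h1, _,
    UpLE_union (upLE_of_mean h2) (dens_level hN) subset_rfl, fun p hp => ?_⟩
  · by_contra h0
    obtain ⟨σ, hσ⟩ := hk x h0 hx
    have h3 := hs σ
    linarith
  · rw [Set.mem_union, not_or] at hp
    obtain ⟨c, hc1, hc2, hc3⟩ := not_not.1 hp.1
    have hpN : ¬ (p : ℕ) ∣ N := hp.2
    refine ⟨c, ?_, fun σ => (hc2 σ).trans hT', ?_⟩
    · dsimp only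
      rw [if_neg hpN]
      exact hc1
    · rw [hΦ]
      exact hc3

theorem C_of_near (hn : 2 ≤ n) (hN : 0 < N) {P : ℕ → ℂ[X]}
    (hP : ∀ p : ℕ, p.Prime → ¬ p ∣ N → (P p).Monic ∧ (P p).natDegree = n)
    (hc : IsCuspidalSystem N P n) {F : Nat.Primes → GQ} (hF : IsFrobeniusChoice F)
    {V : Set Nat.Primes} (hV : ∀ p ∈ V, ¬ (p : ℕ) ∣ N) (h : NearFamily n F P V) :
    HasC n F P V := by
  classical
  have hn0 : 0 < n := by omega
  have hF' := hF
  choose 𝔓 h𝔓 hp𝔓 hFr using hF'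
  obtain ⟨Φ, hΦ⟩ : ∃ Φ : FrobeniusData GQ, Φ.frob = F := ⟨frobeniusData 𝔓 h𝔓 hp𝔓 F hFr, rfl⟩
  obtain ⟨z, hzdef⟩ : ∃ z : Nat.Primes → ℂ,
    z = fun p : Nat.Primes => if (p : ℕ) ∣ N then 0 else -(P p).coeff (n - 1) := ⟨_, rfl⟩
  have hz : ∀ ε : ℝ, 0 < ε → LogBound (1 + ε) (fun p => ‖z p‖ ^ 2) := by
    intro ε hε
    have h1 := cusp_logBound hn hN hc ε hε
    have e1 : (fun p : Nat.Primes => ‖z p‖ ^ 2) = fun p : Nat.Primes =>
        if (p : ℕ) ∣ N then 0 else ‖(P p).coeff (n - 1)‖ ^ 2 := by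
      funext p
      rw [hzdef]
      dsimp only
      split_ifs
      · rw [norm_zero, zero_pow two_ne_zero]
      · rw [norm_neg]
    rw [e1]
    exact h1
  obtain ⟨U, hU, R, k1, k2, k3, ε₀, hε₀, hloc⟩ := fam_u Φ hz hn0 (fun ε hε => by
    obtain ⟨T, hT⟩ := h ε hε
    refine ⟨⌈T⌉₊, fun B => ?_⟩
    obtain ⟨K, _, _, _, s, A, _, ι, r, hk, hr⟩ := hT B
    refine ⟨K, A, inferInstance, inferInstance, inferInstance, inferInstance, s, ι,
      (Units.coeHom _).comp r, ?_⟩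
    rw [hzdef]
    exact near_of_attached Φ hΦ hN (Nat.le_ceil T) le_rfl hk hr)
  have hfin : Finite (GQ ⧸ U) := Subgroup.quotient_finite_of_isOpen U k1
  have hmp : 0 < Nat.card (GQ ⧸ U) := Nat.card_pos
  have hRm : ∀ x, R x ^ Nat.card (GQ ⧸ U) = 1 := by
    intro x
    rw [← map_pow, pow_card_eq_one', map_one]
  let R' : GQ →* GL (Fin n) ℂ := (R.comp (QuotientGroup.mk' U)).toHomUnits
  have hR' : ∀ g, (R' g).val = R (QuotientGroup.mk g) := fun g => rfl
  refine ⟨R', fun W hW => ?_, ?_, ?_, fun p hpV => ?_⟩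
  · refine k2 W fun g w hw => ?_
    obtain ⟨g, rfl⟩ := QuotientGroup.mk_surjective g
    exact hW g w hw
  · refine Subgroup.isOpen_mono (H₁ := U) (fun g hg => MonoidHom.mem_ker.2 (Units.ext ?_)) k1
    rw [hR', (QuotientGroup.eq_one_iff g).2 hg, map_one]
    rfl
  · refine dens_union k3 (dens_level hN) ?_
    intro p hp
    by_contra hcon
    rw [Set.mem_union, not_or] at hcon
    have e1 : z p = (R (QuotientGroup.mk (Φ.frob p))).trace := not_not.1 hcon.1
    have e2 : ¬ (p : ℕ) ∣ N := hcon.2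
    apply hp
    rw [hR', ← hΦ, ← e1, hzdef]
    dsimp only
    rw [if_neg e2]
    rfl
  -- the local part
  obtain ⟨hPm, hPd⟩ := hP p p.2 (hV p hpV)
  obtain ⟨DC, hDC⟩ := Pool.Agent.GalMaass.exists_matrix_charpoly (P p) hPm n hPd
  choose H hH using fun k : ℕ => exists_H ((DC ^ k).trace)
  obtain ⟨T, hT⟩ := h ε₀ hε₀
  obtain ⟨B, hB⟩ := hloc ⌈T⌉₊ (∑ k ∈ Finset.range (n + 1), H k)
  obtain ⟨K, _, _, _, s, A, _, ι, r, hk, hr⟩ := hT B
  obtain ⟨l1, l2⟩ := hB s ι ((Units.coeHom _).comp r) (by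
    rw [hzdef]
    exact near_of_attached Φ hΦ hN (Nat.le_ceil T) le_rfl hk hr)
  obtain ⟨hunr, Q, hQ, hch⟩ := hr.2.2 p hpV
  constructor
  · intro 𝔓' σ i1 i2 i3
    have h1 := l1 σ (congrArg Units.val (hunr 𝔓' σ i1 i2 i3))
    apply Units.ext
    rw [hR']
    exact Pool.Agent.DZ74.eq_one_of_trace hmp _ (hRm _) h1
  · have hinj : Function.Injective (s.comp (algebraMap (𝓞 K) K)) :=
      s.injective.comp RingOfIntegers.coe_injective
    have hQm : Q.Monic := by
      refine Polynomial.monic_of_injective hinj ?_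
      rw [hQ]
      exact hPm
    have hQd : Q.natDegree = n := by
      rw [← Polynomial.natDegree_map_eq_of_injective hinj, hQ, hPd]
    obtain ⟨D, hD⟩ := Pool.Agent.GalMaass.exists_matrix_charpoly Q hQm n hQd
    have hDD : (D.map (s.comp (algebraMap (𝓞 K) K))).charpoly = DC.charpoly := by
      rw [Matrix.charpoly_map, hD, hQ, hDC]
    rw [Polynomial.map_id]
    refine Eq.trans ?_ hDC
    refine Pool.Agent.DZ74.charpoly_eq_of_traces _ _ fun k _ hkn => ?_
    have e1 : s (((D ^ k).trace : 𝓞 K) : K) = (DC ^ k).trace := by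
      rw [← Pool.Agent.GalMaass.trace_pow_congr _ _ hDD k, map_pow_trace]
      rfl
    have e2 : ι ((D ^ k).trace) = ((Units.coeHom _).comp r (F p ^ k)).trace := by
      have k9 : (r (F p)).val.charpoly = (D.map ι).charpoly := by
        rw [hch, Matrix.charpoly_map, hD]
      rw [← map_pow_trace, Pool.Agent.GalMaass.trace_pow_congr _ _ k9.symm k]
      show _ = (r (F p ^ k)).val.trace
      rw [map_pow, Units.val_pow_eq_pow_val]
    have e3 := l2 (F p ^ k) _ e2 (fun σ => by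
      refine (hH k s _ e1 σ).trans ?_
      have h4 : H k ≤ ∑ k ∈ Finset.range (n + 1), H k :=
        Finset.single_le_sum (f := H) (fun _ _ => Nat.zero_le _)
          (Finset.mem_range.2 (by omega))
      exact_mod_cast h4)
    have e4 : (R' (F p)).val ^ k = (R' (F p ^ k)).val := by
      rw [map_pow, Units.val_pow_eq_pow_val]
    rw [e4, hR', e3, e1]

end Pool.Agent.Crit74
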