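import Pool.Agent.W_7742u_h74.UCor
import Pool.Agent.W_7742j_h74.JPol

/-! # `b` is a pseudo-character (compare `W_7742j_h74/JPol.lean`) -/

set_option autoImplicit false

noncomputable section

namespace Pool.Agent.OneU74

open NumberField Pool.Agent.OneI74
open Pool.Agent.OneJ74 (h₁ h₂ Good wd_le card_bad pol_congr support support_multi pol_slice)

variable {K A Γ : Type} [Field K] [CommRing A] [Group Γ] [Fintype Γ] {n : ℕ}
  {t Y : ℕ} {s₀ : K →+* ℂ}
  {ι : 𝓞 K →+* A} {r : Γ →* Matrix (Fin n) (Fin n) A} {f : Γ → 𝓞 K} {ρ : ℕ} {k x : Fin ρ → Γ}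
  {b : Γ → K}

theorem BDat4.pol_good (H : BDat4 t Y s₀ ι r f ρ k x b) (y : Fin (n + 1) → Γ)
    (hy : Good (S f t) (n + 1) y) : pol b (n + 1) y = 0 := by
  classical
  set w : 𝓞 K := pol f (n + 1) y with hw
  have h1 : pol b (n + 1) y = (w : K) := by
    have h2 : pol b (n + 1) y = pol (fun g => algebraMap (𝓞 K) K (f g)) (n + 1) y :=
      pol_congr (fun g hg => H.hb g hg) (n + 1) y hy
    rw [h2, ← pol_map (algebraMap (𝓞 K) K) f (n + 1) y]
  have hker : ι w = 0 := by
    rw [hw, pol_map ι f (n + 1) y]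
    have h2 : pol (fun g => ι (f g)) (n + 1) y = pol (fun g => (r g).trace) (n + 1) y :=
      pol_congr (fun g hg => H.set4.hf g hg) (n + 1) y hy
    rw [h2]
    have h3 := pol_comp (fun g => r g) (fun x y => map_mul r x y)
      (fun M : Matrix (Fin n) (Fin n) A => M.trace) (n + 1) y
    rw [h3]
    exact pol_trace_succ _
  have hpol : ∀ σ : K →+* ℂ, ‖σ (w : K)‖ < Y := by
    intro σ
    rw [← h1, pol_map σ b (n + 1) y]
    have h2 := norm_pol_le (fun g => σ (b g)) (B := 2 * n * t) (by positivity)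
      (fun g => H.norm_le σ g) (n + 1) y
    refine h2.trans_lt ?_
    exact_mod_cast H.set4.cst.i3
  rw [h1, H.set4.hN w hker hpol]
  rfl

theorem BDat4.pol_all (H : BDat4 t Y s₀ ι r f ρ k x b) (y : Fin (n + 1) → Γ) :
    pol b (n + 1) y = 0 := by
  classical
  by_contra hne
  have hfac : ∀ φ ∈ Submodule.span K (Set.range fun w : Γ => fun y : Γ => b (w * y)),
      ∃ α : Fin ρ → Γ → K, ∀ u v, φ (u * v) = ∑ i, α i u * b (k i * v) := by
    intro φ hφ
    induction hφ using Submodule.span_induction with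
    | mem φ hφ =>
      obtain ⟨w, rfl⟩ := hφ
      refine ⟨fun i u => ∑ j, b (w * u * x j) * ((mat f k x)⁻¹ j i), fun u v => ?_⟩
      change b (w * (u * v)) = _
      rw [← mul_assoc, H.hfac]
      refine Finset.sum_congr rfl fun i _ => ?_
      rw [Finset.sum_mul]
    | zero => exact ⟨fun _ _ => 0, fun u v => by simp⟩
    | add φ ψ _ _ h1 h2 =>
      obtain ⟨α, hα⟩ := h1
      obtain ⟨α', hα'⟩ := h2
      refine ⟨fun i u => α i u + α' i u, fun u v => ?_⟩
      rw [Pi.add_apply, hα, hα', ← Finset.sum_add_distrib]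
      exact Finset.sum_congr rfl fun i _ => (add_mul _ _ _).symm
    | smul c φ _ h1 =>
      obtain ⟨α, hα⟩ := h1
      refine ⟨fun i u => c * α i u, fun u v => ?_⟩
      rw [Pi.smul_apply, hα, smul_eq_mul, Finset.mul_sum]
      exact Finset.sum_congr rfl fun i _ => (mul_assoc _ _ _).symm
  have hsl : ∀ (i : Fin (n + 1)) (x : Fin (n + 1) → Γ) (g : Γ),
      pol b (n + 1) (Function.update x i g) ≠ 0 →
      Nat.card Γ ≤ ρ * Nat.card {y : Γ // pol b (n + 1) (Function.update x i y) ≠ 0} := by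
    intro i x g hg
    obtain ⟨α, hα⟩ := hfac _ (pol_slice b H.comm (n + 1) x i)
    have h1 := support (fun y => s₀ (pol b (n + 1) (Function.update x i y)))
      (fun i u => s₀ (α i u)) (fun i v => s₀ (b (k i * v))) (fun u v => by
        have h2 := congrArg s₀ (hα u v)
        rw [map_sum] at h2
        simpa only [map_mul] using h2) (g := g) (by
        intro h0
        exact hg ((map_eq_zero s₀).1 h0))
    refine h1.trans (Nat.mul_le_mul_left _ ?_)
    refine Nat.card_le_card_of_injective (fun z => ⟨z.1, fun h0 => z.2 (by rw [h0, map_zero])⟩) ?_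
    intro z z' hz
    exact Subtype.ext (Subtype.mk.inj hz)
  have h1 := support_multi (n + 1) (pol b (n + 1)) hsl hne
  have h2 : Nat.card {x // pol b (n + 1) x ≠ 0} ≤
      Nat.card {x : Fin (n + 1) → Γ // ¬ Good (S f t) (n + 1) x} := by
    refine Nat.card_le_card_of_injective (fun z => ⟨z.1, fun h0 => z.2 (H.pol_good _ h0)⟩) ?_
    intro z z' hz
    exact Subtype.ext (Subtype.mk.inj hz)
  have h3 := card_bad (S f t) (n + 1)
  have h4 := wd_le (n + 1)
  have h5 := H.set4.card2
  rw [H.rank_eq] at h1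
  set G : ℕ := Nat.card Γ with hG
  have hGpos : 0 < G := Nat.card_pos
  set m : ℕ := Nat.card {g // g ∉ S f t} with hm
  set C' : ℕ := 2 * (n + 1).factorial * n ^ (2 * (n + 1)) with hC
  have h6 : h₂ n = C' + 1 := rfl
  have h7 : G * G ^ (n + 1) ≤ (C' * m) * G ^ (n + 1) := by
    calc G * G ^ (n + 1) ≤ G * ((n ^ 2) ^ (n + 1) *
          Nat.card {x : Fin (n + 1) → Γ // ¬ Good (S f t) (n + 1) x}) :=
          Nat.mul_le_mul_left _ (h1.trans (Nat.mul_le_mul_left _ h2))
      _ = (n ^ 2) ^ (n + 1) *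
          (Nat.card {x : Fin (n + 1) → Γ // ¬ Good (S f t) (n + 1) x} * G) := by ring
      _ ≤ (n ^ 2) ^ (n + 1) * (2 * (n + 1).factorial * m * G ^ (n + 1)) := by
          refine Nat.mul_le_mul_left _ (h3.trans ?_)
          exact Nat.mul_le_mul_right _ (Nat.mul_le_mul_right _ h4)
      _ = (C' * m) * G ^ (n + 1) := by
          rw [hC, ← pow_mul]
          ring
  have h8 : G ≤ C' * m := Nat.le_of_mul_le_mul_right h7 (pow_pos hGpos _)
  rw [h6] at h5
  have h9 : (C' + 1) * m = C' * m + m := by ring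
  have h10 : m = 0 := by omega
  rw [h10, mul_zero] at h8
  omega

end Pool.Agent.OneU74
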