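import Pool.Agent.W_7742u_h74.UFin
import Pool.Agent.W_7742m_h74.UUni
import Pool.Agent.W_7742m_h74.MFam

/-! # Complex representations of finite groups are defined over number fields -/

set_option autoImplicit false

noncomputable section

open NumberField

namespace Pool.Agent.OneU74

open Pool.Agent.GalSide Pool.Agent.OneI74 Pool.Agent.OneM74
open Pool.Agent.OneN74 (sum_sq)

theorem trace_integral {Γ : Type} [Group Γ] [Fintype Γ] {n : ℕ}
    (R : Γ →* Matrix (Fin n) (Fin n) ℂ) (g : Γ) : IsIntegral ℤ (R g).trace := by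
  have hcard : 0 < Fintype.card Γ := Fintype.card_pos
  have hfin : R g ^ Fintype.card Γ = 1 := by rw [← map_pow, pow_card_eq_one, map_one]
  obtain ⟨a, ha⟩ := OneP74.exists_exponents hcard (R g) hfin _
    (Complex.isPrimitiveRoot_exp (Fintype.card Γ) hcard.ne')
  have hz := Complex.isPrimitiveRoot_exp (Fintype.card Γ) hcard.ne'
  have h2 := ha 1
  rw [pow_one] at h2
  rw [h2]
  exact IsIntegral.sum _ fun i _ => (hz.isIntegral hcard).pow _

theorem map_trace {E F : Type} [CommRing E] [CommRing F] {n : ℕ} (τ : E →+* F)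
    (M : Matrix (Fin n) (Fin n) E) : (M.map τ).trace = τ M.trace := by
  rw [Matrix.trace, Matrix.trace, map_sum]
  rfl

/-- The representation over another field. -/
def mapRep {Γ E F : Type} [Group Γ] [CommRing E] [CommRing F] {n : ℕ} (τ : E →+* F)
    (R : Γ →* Matrix (Fin n) (Fin n) E) : Γ →* Matrix (Fin n) (Fin n) F :=
  (τ.mapMatrix (m := Fin n)).toMonoidHom.comp R

theorem realize {Γ : Type} [Group Γ] [Fintype Γ] {n : ℕ} (hn : 0 < n)
    (R : Γ →* Matrix (Fin n) (Fin n) ℂ)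
    (hR : ∀ W : Submodule ℂ (Fin n → ℂ), (∀ g, ∀ w ∈ W, (R g).mulVec w ∈ W) → W = ⊥ ∨ W = ⊤) :
    ∃ (E : Type) (_ : Field E) (_ : NumberField E) (τ : E →+* ℂ)
      (R₀ : Γ →* Matrix (Fin n) (Fin n) E), (∀ g, τ (R₀ g).trace = (R g).trace) ∧
      ∀ (τ' : E →+* ℂ) (W : Submodule ℂ (Fin n → ℂ)),
        (∀ g, ∀ w ∈ W, ((R₀ g).map τ').mulVec w ∈ W) → W = ⊥ ∨ W = ⊤ := by
  classical
  have hfinS : Finite (Set.range fun g => (R g).trace) := Set.finite_range _
  let L : IntermediateField ℚ ℂ := IntermediateField.adjoin ℚ (Set.range fun g => (R g).trace)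
  have h1 : FiniteDimensional ℚ L := by
    refine IntermediateField.finiteDimensional_adjoin fun x hx => ?_
    obtain ⟨g, rfl⟩ := hx
    exact (trace_integral R g).tower_top
  have h2 : NumberField L :=
    { to_charZero := inferInstance
      to_finiteDimensional := h1 }
  have hmem : ∀ g, (R g).trace ∈ L := fun g => IntermediateField.subset_adjoin ℚ _ ⟨g, rfl⟩
  let s₀ : L →+* ℂ := L.val.toRingHom
  have hβ : ∀ g, ∃ b : 𝓞 L, s₀ (b : L) = (R g).trace := by
    intro g
    have h3 : IsIntegral ℤ (⟨(R g).trace, hmem g⟩ : L) := by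
      rw [← isIntegral_algHom_iff s₀.toIntAlgHom s₀.injective]
      exact trace_integral R g
    exact ⟨⟨_, h3⟩, rfl⟩
  choose β hβ using hβ
  obtain ⟨E, hE1, hE2, i, R₀, hR₀⟩ := exists_field β s₀ R fun g => (hβ g).symm
  obtain ⟨τ, hτ⟩ := UUni_ext i s₀
  have hτt : ∀ g, τ (R₀ g).trace = (R g).trace := by
    intro g
    rw [hR₀, ← hβ, ← hτ]
    rfl
  refine ⟨E, hE1, hE2, τ, R₀, hτt, fun τ' W hW => ?_⟩
  have htr : ∀ (s : E →+* ℂ) (g : Γ), (mapRep s R₀ g).trace = s (R₀ g).trace := fun s g =>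
    map_trace s _
  have hint : ∀ g, ∃ b : 𝓞 E, (b : E) = (R₀ g).trace := by
    intro g
    have h3 : IsIntegral ℤ (R₀ g).trace := by
      rw [← isIntegral_algHom_iff τ.toIntAlgHom τ.injective]
      have h4 := trace_integral (mapRep τ R₀) g
      rw [htr] at h4
      exact h4
    exact ⟨⟨_, h3⟩, rfl⟩
  choose γ hγ using hint
  obtain ⟨m, hm⟩ := sum_sq R
  have hG : (0 : ℝ) < Fintype.card Γ := by exact_mod_cast Fintype.card_pos
  have hle := MFam_schur hn R hR
  have hm1 : ∑ g, ‖τ (γ g : E)‖ ^ 2 = (Fintype.card Γ : ℝ) * m := by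
    rw [← hm]
    refine Finset.sum_congr rfl fun g _ => ?_
    rw [hγ, hτt]
  have h3 := mean_sq_all γ τ m (fun s => mapRep s R₀) (fun s g => by rw [htr, hγ]) hm1 τ'
  refine GalSide.eq_bot_or_eq_top (mapRep τ' R₀) ?_ W hW
  have h4 : ∑ g, ‖(mapRep τ' R₀ g).trace‖ ^ 2 = (Fintype.card Γ : ℝ) * m := by
    rw [← h3]
    refine Finset.sum_congr rfl fun g _ => ?_
    rw [htr, hγ]
  rw [h4, ← hm]
  exact hle

end Pool.Agent.OneU74
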