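import Pool.Agent.W_7742u_h74.UDef

/-! # Existence of the extension `b` (compare `W_7742j_h74/JSet.lean`) -/

set_option autoImplicit false

noncomputable section

namespace Pool.Agent.OneU74

open NumberField Pool.Agent.OneI74
open Pool.Agent.OneJ74 (h₁ h₂ exists_ext)

/-- A bound for determinants. -/
theorem norm_det_le {m : ℕ} (M : Matrix (Fin m) (Fin m) ℂ) {B : ℝ} (hB : 0 ≤ B)
    (h : ∀ i j, ‖M i j‖ ≤ B) : ‖M.det‖ ≤ (m * B) ^ m := by
  have h1 := Matrix.det_le (A := M) (abv := (NormedField.toAbsoluteValue ℂ)) (x := B) (fun i j => h i j)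
  have h2 : ‖M.det‖ ≤ m.factorial • B ^ m := by
    rw [Fintype.card_fin] at h1
    exact h1
  refine h2.trans ?_
  rw [nsmul_eq_mul, mul_pow]
  refine mul_le_mul_of_nonneg_right ?_ (pow_nonneg hB m)
  exact_mod_cast Nat.factorial_le_pow m

variable {K A Γ : Type} [Field K] [CommRing A] [Group Γ] [Fintype Γ] {n : ℕ}
  {t Y : ℕ} {s₀ : K →+* ℂ}
  {ι : 𝓞 K →+* A} {r : Γ →* Matrix (Fin n) (Fin n) A} {f : Γ → 𝓞 K}

theorem coe_det {m : ℕ} (f : Γ → 𝓞 K) (k x : Fin m → Γ) :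
    (((Matrix.of fun i j => f (k i * x j)).det : 𝓞 K) : K) = (mat f k x).det := by
  have h1 : mat f k x = (Matrix.of fun i j => f (k i * x j)).map (algebraMap (𝓞 K) K) := rfl
  rw [h1, ← RingHom.mapMatrix_apply, ← RingHom.map_det]

theorem norm_mat_det {m : ℕ} (f : Γ → 𝓞 K) (k x : Fin m → Γ) {t : ℕ}
    (hkx : ∀ i j, k i * x j ∈ S f t) (σ : K →+* ℂ) : ‖σ (mat f k x).det‖ ≤ (m * (t : ℝ)) ^ m := by
  rw [RingHom.map_det]
  exact norm_det_le _ (Nat.cast_nonneg _) fun i j => hkx i j σ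

theorem Set4.minor_zero (H : Set4 t Y s₀ ι r f) (k x : Fin (n ^ 2 + 1) → Γ)
    (hkx : ∀ i j, k i * x j ∈ S f t) : (mat f k x).det = 0 := by
  have h3 : ι (Matrix.of fun i j => f (k i * x j)).det = 0 := by
    rw [RingHom.map_det]
    have h4 : ι.mapMatrix (Matrix.of fun i j => f (k i * x j)) =
        Matrix.of fun i j => (r (k i) * r (x j)).trace := by
      ext i j
      rw [RingHom.mapMatrix_apply, Matrix.map_apply, Matrix.of_apply, Matrix.of_apply,
        H.hf _ (hkx i j), map_mul]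
    rw [h4]
    exact det_gram (by omega) _ _
  have h5 := H.hN _ h3 fun σ => by
    rw [coe_det]
    refine (norm_mat_det f k x hkx σ).trans_lt ?_
    exact_mod_cast H.cst.i1
  rw [← coe_det, h5]
  rfl

theorem Set4.exists_bdat (H : Set4 t Y s₀ ι r f) :
    ∃ (ρ : ℕ) (k x : Fin ρ → Γ) (b : Γ → K), BDat4 t Y s₀ ι r f ρ k x b := by
  classical
  let P : ℕ → Prop := fun ρ => ∃ k x : Fin ρ → Γ, (∀ i j, k i * x j ∈ S f t) ∧
    (mat f k x).det ≠ 0
  have hP0 : P 0 := ⟨fun _ => 1, fun _ => 1, fun i => i.elim0, by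
    rw [Matrix.det_isEmpty]
    exact one_ne_zero⟩
  have hspec : P (Nat.findGreatest P (n ^ 2)) := Nat.findGreatest_spec (Nat.zero_le _) hP0
  have hle : Nat.findGreatest P (n ^ 2) ≤ n ^ 2 := Nat.findGreatest_le _
  have hgr : ∀ m, Nat.findGreatest P (n ^ 2) < m → m ≤ n ^ 2 → ¬ P m := fun m h1 h2 =>
    Nat.findGreatest_is_greatest h1 h2
  generalize Nat.findGreatest P (n ^ 2) = ρ at hspec hle hgr
  obtain ⟨k, x, hkx, hdet⟩ := hspec
  have hmin : ∀ k' x' : Fin (ρ + 1) → Γ, (∀ i j, k' i * x' j ∈ S f t) →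
      (Matrix.of fun i j => ((f (k' i * x' j) : 𝓞 K) : K)).det = 0 := by
    intro k' x' hk
    rcases Nat.lt_or_ge ρ (n ^ 2) with h | h
    · by_contra hne
      exact hgr (ρ + 1) (Nat.lt_succ_self ρ) h ⟨k', x', hk, hne⟩
    · obtain rfl : ρ = n ^ 2 := le_antisymm hle h
      exact H.minor_zero k' x' hk
  have hS : 2 * ρ * (ρ + 1) * Nat.card {g // g ∉ S f t} < Nat.card Γ := by
    have h1 := H.card1
    have h2 : 2 * ρ * (ρ + 1) < h₁ n := by
      unfold h₁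
      have : 2 * ρ * (ρ + 1) ≤ 2 * n ^ 2 * (n ^ 2 + 1) :=
        Nat.mul_le_mul (Nat.mul_le_mul_left 2 hle) (Nat.succ_le_succ hle)
      omega
    rcases Nat.eq_zero_or_pos (Nat.card {g // g ∉ S f t}) with h0 | h0
    · rw [h0, mul_zero]
      exact Nat.card_pos
    · exact (Nat.mul_lt_mul_of_pos_right h2 h0).trans_le h1
  obtain ⟨b, hb, hfac⟩ :=
    exists_ext (S f t) (fun g => ((f g : 𝓞 K) : K)) k x hkx hdet hmin hS
  exact ⟨ρ, k, x, b, H, hle, hkx, hdet, hb, hfac⟩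

end Pool.Agent.OneU74
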