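import Pool.Agent.W_7742x_h74.QDef

/-! # Definitions for the statement: Galois representations attached to polynomials -/

set_option autoImplicit false

noncomputable section

namespace Pool.Agent.Crit74

open NumberField Polynomial Filter Topology

/-- The absolute Galois group of `k`. -/
abbrev AbsGal (k : Type) [Field k] : Type := AlgebraicClosure k ≃ₐ[k] AlgebraicClosure k

/-- The ring of the algebraic integers in the algebraic closure of `k`. -/
abbrev IntClosure (k : Type) [Field k] : Type := integralClosure ℤ (AlgebraicClosure k)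

/-- The absolute Galois group of `ℚ`. -/
abbrev GQ : Type := AbsGal ℚ

/-- The ring of all algebraic integers. -/
abbrev Zbar : Type := IntClosure ℚ

/-- `σ x ≡ x ^ q` modulo `𝔓` for all algebraic integers `x`.  For a prime ideal `𝔓` above `p` the `σ`
with this property for `q = p` are the Frobenius elements at `𝔓`, those for `q = 1` the elements of the
inertia group of `𝔓`. -/
def PowAt (𝔓 : Ideal Zbar) (q : ℕ) (σ : GQ) : Prop :=
  ∀ x : Zbar, ∃ y ∈ 𝔓, σ (x : AlgebraicClosure ℚ) = (x : AlgebraicClosure ℚ) ^ q + y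

/-- `F p` is a Frobenius element at a prime ideal above `p`, for all primes `p`. -/
def IsFrobeniusChoice (F : Nat.Primes → GQ) : Prop :=
  ∀ p : Nat.Primes, ∃ 𝔓 : Ideal Zbar, 𝔓.IsPrime ∧ ((p : ℕ) : Zbar) ∈ 𝔓 ∧ PowAt 𝔓 p (F p)

/-- The homomorphism `r` is unramified at `p`. -/
def Unramified {H : Type} [Group H] (r : GQ →* H) (p : Nat.Primes) : Prop :=
  ∀ (𝔓 : Ideal Zbar) (σ : GQ), 𝔓.IsPrime → ((p : ℕ) : Zbar) ∈ 𝔓 → PowAt 𝔓 1 σ → r σ = 1

/-- The set `X` of primes has Dirichlet density zero. -/
def DensityZero (X : Set Nat.Primes) : Prop :=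
  Tendsto (fun s : ℝ => (∑' p : Nat.Primes, X.indicator
    (fun q : Nat.Primes => ((q : ℕ) : ℝ) ^ (-s)) p) / Real.log (1 / (s - 1))) (𝓝[>] 1) (𝓝 0)

/-- The (upper) mean of `a p` over the primes is at most `M`: the series of the `a p * p ^ (-s)` converges
for `s > 1` near `1`, and the limit superior of its quotient by `log (1 / (s - 1))` for `s → 1` is at
most `M`. -/
def MeanLE (M : ℝ) (a : Nat.Primes → ℝ) : Prop :=
  ∀ ε : ℝ, 0 < ε → ∀ᶠ s : ℝ in 𝓝[>] 1,
    Summable (fun p : Nat.Primes => a p * ((p : ℕ) : ℝ) ^ (-s)) ∧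
    ∑' p : Nat.Primes, a p * ((p : ℕ) : ℝ) ^ (-s) ≤ (M + ε) * Real.log (1 / (s - 1))

/-- The representation `r` over the ring `A` with `ι : B → A` has open kernel and is attached to the
polynomials `P p` over `B` (characteristic polynomials of degree `n`; the trace is the coefficient of
degree `n - 1` up to the sign): the trace of `r (F p)` is that of `P p` for all primes `p` outside a set
of density zero, and `r` is unramified at `p` and the characteristic polynomial of `r (F p)` is `P p` for
all `p` in `V`. -/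
def Attached (F : Nat.Primes → GQ) {B A : Type} [CommRing B] [CommRing A] {n : ℕ} (P : ℕ → B[X])
    (V : Set Nat.Primes) (ι : B →+* A) (r : GQ →* GL (Fin n) A) : Prop :=
  IsOpen (r.ker : Set GQ) ∧
    DensityZero {p : Nat.Primes | (r (F p)).val.trace ≠ ι (-(P p).coeff (n - 1))} ∧
    ∀ p ∈ V, Unramified r p ∧ (r (F p)).val.charpoly = (P p).map ι

/-- The representation `R` over the number field `E` is absolutely irreducible: for every embedding of
`E` in `ℂ` there are no invariant subspaces of `ℂ ^ n` besides the trivial ones. -/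
def IsAbsIrreducible {E : Type} [Field E] {n : ℕ} (R : GQ →* GL (Fin n) E) : Prop :=
  ∀ (τ : E →+* ℂ) (W : Submodule ℂ (Fin n → ℂ)),
    (∀ g, ∀ w ∈ W, ((R g).val.map τ).mulVec w ∈ W) → W = ⊥ ∨ W = ⊤

/-- There is an absolutely irreducible representation over a number field `E` in `ℂ`, trivial on the
subgroup `U`, attached to the polynomials `P p` over `ℂ`. -/
def HasMotive (n : ℕ) (F : Nat.Primes → GQ) (P : ℕ → ℂ[X]) (V : Set Nat.Primes)
    (U : Subgroup GQ) : Prop :=
  ∃ (E : Type) (_ : Field E) (_ : NumberField E) (i : E →+* ℂ) (R : GQ →* GL (Fin n) E),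
    IsAbsIrreducible R ∧ U ≤ R.ker ∧
    Attached F P V (RingHom.id ℂ) ((Matrix.GeneralLinearGroup.map i).comp R)

end Pool.Agent.Crit74
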