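import Pool.Agent.W_7742u_h74.UNea
import Pool.Agent.W_7742n_h74.NMain

/-! # The equivalence -/

set_option autoImplicit false

noncomputable section

open Filter Topology

namespace Pool.Agent.Crit74

open NumberField Polynomial
open Pool.Agent.OneM74 Pool.Agent.GalSide Pool.Agent.OneP74 Pool.Agent.OneI74 Pool.Agent.OneN74
open Pool.Agent.Cheb Pool.Agent.GL74 Pool.Agent.GLForm74
open Pool.Agent.OneU74 (ind_mul)

variable {n N : ℕ}

theorem mean_of_dens {X X' : Set Nat.Primes} (h : DensityZero X) (hX : X' ⊆ X) :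
    MeanLE 0 (X'.indicator 1) := by
  have h' : DensityZero X' := dens_mono h hX
  intro ε hε
  have h1 : ∀ᶠ s : ℝ in 𝓝[>] 1, primeSum X' s / Real.log (1 / (s - 1)) < ε :=
    h'.eventually_lt_const hε
  have hgt : ∀ᶠ s : ℝ in 𝓝[>] 1, 1 < s := Chb_gt
  filter_upwards [h1, Chb_log.eventually_gt_atTop 0, hgt] with s h2 hL hs
  have e1 : (fun p : Nat.Primes => X'.indicator (1 : Nat.Primes → ℝ) p * ((p : ℕ) : ℝ) ^ (-s)) =
      X'.indicator (fun q : Nat.Primes => ((q : ℕ) : ℝ) ^ (-s)) := funext fun p => ind_mul X' s p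
  rw [e1]
  rw [div_lt_iff₀ hL] at h2
  refine ⟨Chb_summable hs X', ?_⟩
  rw [zero_add]
  exact h2.le

theorem mean_mono {M M' : ℝ} (h : M ≤ M') {a : Nat.Primes → ℝ} (ha : MeanLE M a) :
    MeanLE M' a := by
  intro ε hε
  filter_upwards [ha ε hε, Chb_log.eventually_gt_atTop 0] with s hs hL
  exact ⟨hs.1, hs.2.trans (mul_le_mul_of_nonneg_right (by linarith) hL.le)⟩

/-- A motive gives representations modulo all ideals. -/
theorem exact_of_motive {F : Nat.Primes → GQ} {P : ℕ → ℂ[X]} {V : Set Nat.Primes} (hn : 0 < n)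
    (h : HasMotive n F P V ⊥) :
    ∃ (K : Type) (_ : Field K) (_ : NumberField K) (s : K →+* ℂ) (T : ℝ),
      ∀ 𝔞 : Ideal (𝓞 K), 𝔞 ≠ ⊥ →
        ∃ (A : Type) (_ : CommRing A) (ι : 𝓞 K →+* A) (r : GQ →* GL (Fin n) A),
          RingHom.ker ι = 𝔞 ∧ NearlyAttached F P V s T 0 ι r := by
  classical
  obtain ⟨E, iE, iN, i, R, hirr, -, ho, hd, hV⟩ := h
  have hne : Nonempty (Fin n) := ⟨⟨0, hn⟩⟩
  rw [GLmap_ker i i.injective] at ho
  have hfin : Finite (GQ ⧸ R.ker) := Subgroup.quotient_finite_of_isOpen R.ker ho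
  have hRm : ∀ g, (R g).val ^ Nat.card (GQ ⧸ R.ker) = 1 := by
    intro g
    have h1 : g ^ Nat.card (GQ ⧸ R.ker) ∈ R.ker := by
      rw [← QuotientGroup.eq_one_iff, QuotientGroup.mk_pow, pow_card_eq_one']
    rw [← Units.val_pow_eq_pow_val, ← map_pow, MonoidHom.mem_ker.1 h1]
    rfl
  choose Q hQ using fun p : Nat.Primes => exists_Q Nat.card_pos (R (F p)).val (hRm _)
  have htrQ : ∀ p, ((-(Q p).coeff (n - 1) : 𝓞 E) : E) = (R (F p)).val.trace := by
    intro p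
    have h2 := congrArg (fun f => Polynomial.coeff f (n - 1)) (hQ p)
    simp only [Polynomial.coeff_map] at h2
    rw [Matrix.trace_eq_neg_charpoly_coeff, Fintype.card_fin, ← h2]
    rfl
  refine ⟨E, iE, iN, i, n, fun 𝔞 h𝔞 => ?_⟩
  obtain ⟨A, iA, ι, r, hk, hker, htr, hch⟩ := exists_mod_ch (RingHom.id E) R ho 𝔞 h𝔞
  refine ⟨A, iA, ι, r, hk, Subgroup.isOpen_mono hker ho, ?_, fun p hp => ⟨?_, Q p, ?_, ?_⟩⟩
  · refine mean_of_dens hd ?_
    intro p hp hx
    refine hp ⟨-(Q p).coeff (n - 1), ?_, fun σ => ?_, ?_⟩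
    · rw [htrQ, ← map_trace' i, ← GLmap_val]
      exact hx
    · rw [htrQ, ← map_trace' σ]
      refine norm_trace_le (m := Nat.card (GQ ⧸ R.ker)) Nat.card_pos _ ?_
      rw [← RingHom.mapMatrix_apply, ← map_pow, hRm, map_one]
    · exact htr _ _ (htrQ p).symm
  · refine unramified_of_ker hker ?_
    refine unramified_of_ker ?_ (hV p hp).1
    rw [GLmap_ker i i.injective]
  · rw [← Polynomial.map_map, hQ p, ← Matrix.charpoly_map, ← GLmap_val, (hV p hp).2,
      Polynomial.map_id]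
  · refine hch _ _ ?_
    rw [hQ p, Polynomial.map_id]

/-- Representations modulo all ideals give nearly attached representations. -/
theorem near_of_exact {F : Nat.Primes → GQ} {P : ℕ → ℂ[X]} {V V' : Set Nat.Primes} (hV : V' ⊆ V)
    (h : ∃ (K : Type) (_ : Field K) (_ : NumberField K) (s : K →+* ℂ) (T : ℝ),
      ∀ 𝔞 : Ideal (𝓞 K), 𝔞 ≠ ⊥ →
        ∃ (A : Type) (_ : CommRing A) (ι : 𝓞 K →+* A) (r : GQ →* GL (Fin n) A),
          RingHom.ker ι = 𝔞 ∧ NearlyAttached F P V s T 0 ι r) : NearFamily n F P V' := by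
  classical
  obtain ⟨K, iK, iN, s, T, h⟩ := h
  intro ε hε
  refine ⟨T, fun B => ?_⟩
  obtain ⟨m, hm⟩ := exists_nat_ge B
  obtain ⟨A, iA, ι, r, hk, h1, h2, h3⟩ := h (Ideal.span {((m + 1 : ℕ) : 𝓞 K)}) (by
    rw [Ne, Ideal.span_singleton_eq_bot, Nat.cast_eq_zero]
    omega)
  refine ⟨K, iK, inferInstance, inferInstance, s, A, iA, ι, r, ?_, h1,
    mean_mono hε.le h2, fun p hp => h3 p (hV hp)⟩
  intro x hx0 hx
  by_contra hcon
  push Not at hcon
  have hx' : x ∈ Ideal.span {((m + 1 : ℕ) : 𝓞 K)} := by rw [← hk]; exact hx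
  have h4 := absNorm_le_prod _ hx' hx0
  rw [Ideal.absNorm_span_natCast] at h4
  have h5 : ∏ σ : K →+* ℂ, ‖σ (x : K)‖ ≤ ∏ _σ : K →+* ℂ, (m : ℝ) :=
    Finset.prod_le_prod (fun σ _ => norm_nonneg _) fun σ _ => ((hcon σ).le.trans hm)
  rw [Finset.prod_const, Finset.card_univ, NumberField.Embeddings.card K ℂ] at h5
  have h6 : Module.finrank ℤ (𝓞 K) = Module.finrank ℚ K := RingOfIntegers.rank K
  rw [h6] at h4
  have h7 : ((m + 1 : ℕ) ^ Module.finrank ℚ K : ℕ) ≤ m ^ Module.finrank ℚ K := by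
    have h8 := h4.trans h5
    exact_mod_cast h8
  have h8 : m ^ Module.finrank ℚ K < (m + 1) ^ Module.finrank ℚ K :=
    Nat.pow_lt_pow_left (Nat.lt_succ_self m) (Module.finrank_pos (R := ℚ) (M := K)).ne'
  exact absurd h7 (not_le.2 h8)

/-- The equivalence. -/
theorem tfae_near (hn : 2 ≤ n) (hN : 0 < N) {P : ℕ → ℂ[X]}
    (hP : ∀ p : ℕ, p.Prime → ¬ p ∣ N → (P p).Monic ∧ (P p).natDegree = n)
    (hc : IsCuspidalSystem N P n) {F : Nat.Primes → GQ} (hF : IsFrobeniusChoice F)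
    {V : Set Nat.Primes} (hV : ∀ p ∈ V, ¬ (p : ℕ) ∣ N) :
    [HasMotive n F P V ⊥,
      ∃ (K : Type) (_ : Field K) (_ : NumberField K) (s : K →+* ℂ) (T : ℝ),
        ∀ 𝔞 : Ideal (𝓞 K), 𝔞 ≠ ⊥ →
          ∃ (A : Type) (_ : CommRing A) (ι : 𝓞 K →+* A) (r : GQ →* GL (Fin n) A),
            RingHom.ker ι = 𝔞 ∧ NearlyAttached F P V s T 0 ι r,
      ∀ W ⊆ V, W.Subsingleton → NearFamily n F P W].TFAE := by
  tfae_have 1 → 2 := exact_of_motive (by omega)
  tfae_have 2 → 3 := fun h W hW _ => near_of_exact hW h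
  tfae_have 3 → 1 := by
    intro h
    refine motive_of_C (by omega) (combineC hF ?_ fun p hp => ?_)
    · exact C_of_near hn hN hP hc hF (by simp) (h ∅ (Set.empty_subset V) Set.subsingleton_empty)
    · exact C_of_near hn hN hP hc hF (fun q hq => by
        rw [Set.mem_singleton_iff.1 hq]
        exact hV p hp) (h {p} (Set.singleton_subset_iff.2 hp) Set.subsingleton_singleton)
  tfae_finish

end Pool.Agent.Crit74
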